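import Pool.Agent.GMH.Prd

/-!
# GML/Anch: anchors of the exact vertex `a` and Loomis-Whitney (notes 3984 (B)(2), 4007 (3), 4013)

General part: `P : FP Om`, `N t` the data of the anchors (node at exact `a`), `nb l t` = the label `l` becomes bad at
the time `t` (raw event, `l : ι`). `bad t l` = the label `l` is bad at the time `t` (it became bad after the last
anchor), `anc t` = there is an anchor at the time `t + 1`: `kap ≤ P(∃ l, l bad or new bad at t + 1 | N (t+1))`; at an
anchor all flags are reset.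

* `anc_count` : `kap * ∑_(t<n) P (anc t) ≤ ∑_l ∑_(t<n) P (nb l (t+1))`;
* `share_lt` : `P (∃ l, bad t l | N t) < kap` at every time;
* `allbad_le` : `P (∃ t ≤ n, all labels bad at t) ≤ P (all bad at n) + ∑_(t<n) P (all bad at t, anc t)`;

Product part (`Wts ι Pt`, cells `c`, `nb l t` a function of the coordinates different from `l` and of the node):

* `LW_all` : `P (all bad at t | node t) ≤ (k kap) ^ (1 - 1/k)⁻¹`, `k = card ι`;
* `allbad` : `P (∃ t ≤ n, all labels bad at t) ≤ (k kap) ^ (1 - 1/k)⁻¹ (1 + h ∑_(t<n) P (anc t))`, `h` = bound of the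
  shrinking of a node in one time; `allbad'` with the count of `anc_count`.

Special atoms: `W t` a filtration which knows the anchors (`an`), `ch t` = changed since the anchor:

* `spec_count` : `kap * E #(epochs in which P (ch t | W t) ≥ kap at some time) ≤ E #(changes)`;
* `spec_share` : at a time which is not special the share is `< kap`.
-/

set_option autoImplicit false
set_option linter.unusedSectionVars false

namespace Pool.Agent.GML

open Finset Pool.Agent.PWZ Pool.Agent.M3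

noncomputable section

/-! ## the flags -/

section gen

variable {Om : Type*} [Fintype Om] (P : FP Om) {κ : ℕ → Type*} (N : ∀ t, Om → κ t) {ι : Type*} (nb : ι → ℕ → Om → Prop)
  (kap : ℝ)

/-- the bad labels at the time `t` -/
def bad : ℕ → ι → Om → Prop
  | 0 => fun _ _ => False
  | t + 1 => fun l w => (bad t l w ∨ nb l (t + 1) w) ∧
      ¬ kap ≤ P.ce (N (t + 1)) (fun v => ind (∃ l', bad t l' v ∨ nb l' (t + 1) v)) w

/-- some label is bad at the time `t + 1` before the reset -/
def cand (t : ℕ) (w : Om) : Prop := ∃ l, bad P N nb kap t l w ∨ nb l (t + 1) w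

/-- anchor at the time `t + 1` -/
def anc (t : ℕ) (w : Om) : Prop := kap ≤ P.ce (N (t + 1)) (fun v => ind (cand P N nb kap t v)) w

theorem bad_zero (l : ι) (w : Om) : ¬ bad P N nb kap 0 l w := fun h => h

theorem bad_succ (t : ℕ) (l : ι) (w : Om) :
    bad P N nb kap (t + 1) l w ↔ (bad P N nb kap t l w ∨ nb l (t + 1) w) ∧ ¬ anc P N nb kap t w := Iff.rfl

theorem anc_loc {t : ℕ} {v w : Om} (h : N (t + 1) v = N (t + 1) w) : anc P N nb kap t v ↔ anc P N nb kap t w := by
  unfold anc
  rw [P.ce_fac (N (t + 1)) _ v w h]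

/-- some label is bad at the time `t` -/
def some_ (t : ℕ) (w : Om) : Prop := ∃ l, bad P N nb kap t l w

/-- all labels are bad at the time `t` -/
def all_ (t : ℕ) (w : Om) : Prop := ∀ l, bad P N nb kap t l w

theorem anc_tel [Fintype ι] (t : ℕ) (w : Om) :
    ind (anc P N nb kap t w ∧ cand P N nb kap t w) ≤
      ind (some_ P N nb kap t w) - ind (some_ P N nb kap (t + 1) w) + ∑ l, ind (nb l (t + 1) w) := by
  classical
  have hs : ind (cand P N nb kap t w) ≤ ind (some_ P N nb kap t w) + ∑ l, ind (nb l (t + 1) w) := by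
    by_cases h : cand P N nb kap t w
    · obtain ⟨l, hl⟩ := h
      rcases hl with hl | hl
      · have hs' : some_ P N nb kap t w := ⟨l, hl⟩
        rw [ind_of hs']
        have : 0 ≤ ∑ l, ind (nb l (t + 1) w) := Finset.sum_nonneg fun i _ => ind_nonneg _
        linarith [ind_le_one (cand P N nb kap t w)]
      · have h1 : ind (nb l (t + 1) w) ≤ ∑ l, ind (nb l (t + 1) w) :=
          Finset.single_le_sum (f := fun l => ind (nb l (t + 1) w)) (fun i _ => ind_nonneg _) (mem_univ l)
        rw [ind_of hl] at h1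
        linarith [ind_le_one (cand P N nb kap t w), ind_nonneg (some_ P N nb kap t w)]
    · rw [ind_not h]
      have : 0 ≤ ∑ l, ind (nb l (t + 1) w) := Finset.sum_nonneg fun i _ => ind_nonneg _
      linarith [ind_nonneg (some_ P N nb kap t w)]
  by_cases ha : anc P N nb kap t w
  · have h0 : ¬ some_ P N nb kap (t + 1) w := fun ⟨l, hl⟩ => hl.2 ha
    rw [ind_not h0]
    have : ind (anc P N nb kap t w ∧ cand P N nb kap t w) ≤ ind (cand P N nb kap t w) := ind_mono fun h => h.2
    linarith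
  · rw [ind_not (fun h => ha h.1 : ¬ (anc P N nb kap t w ∧ cand P N nb kap t w))]
    have h1 : ind (some_ P N nb kap (t + 1) w) ≤ ind (cand P N nb kap t w) :=
      ind_mono fun ⟨l, hl⟩ => ⟨l, hl.1⟩
    linarith

/-- the number of anchors -/
theorem anc_count [Fintype ι] (n : ℕ) :
    kap * ∑ t ∈ range n, P.Pr (anc P N nb kap t) ≤ ∑ l, ∑ t ∈ range n, P.Pr (nb l (t + 1)) := by
  classical
  have h1 : ∀ t, kap * P.Pr (anc P N nb kap t) ≤ P.Pr (fun w => anc P N nb kap t w ∧ cand P N nb kap t w) := by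
    intro t
    have e1 : P.Pr (fun w => anc P N nb kap t w ∧ cand P N nb kap t w) =
        P.E (fun w => ind (anc P N nb kap t w) * P.ce (N (t + 1)) (fun v => ind (cand P N nb kap t v)) w) := by
      rw [P.E_mul_ce (X := N (t + 1)) (h := fun w => ind (anc P N nb kap t w))
        (Fac.ind fun v w h => anc_loc P N nb kap h)]
      refine P.E_congr fun w _ => ?_
      by_cases ha : anc P N nb kap t w
      · by_cases hb : cand P N nb kap t w
        · rw [ind_of ha, ind_of hb, ind_of (⟨ha, hb⟩ : anc P N nb kap t w ∧ cand P N nb kap t w), one_mul]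
        · rw [ind_not hb, ind_not (fun h => hb h.2 : ¬ (anc P N nb kap t w ∧ cand P N nb kap t w)), mul_zero]
      · rw [ind_not ha, ind_not (fun h => ha h.1 : ¬ (anc P N nb kap t w ∧ cand P N nb kap t w)), zero_mul]
    rw [e1]
    unfold FP.Pr
    rw [← P.E_smul]
    refine P.E_mono fun w _ => ?_
    by_cases ha : anc P N nb kap t w
    · rw [ind_of ha, one_mul, mul_one]
      exact ha
    · rw [ind_not ha, zero_mul, mul_zero]
  have h2 : ∀ t, P.Pr (fun w => anc P N nb kap t w ∧ cand P N nb kap t w) ≤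
      P.Pr (some_ P N nb kap t) - P.Pr (some_ P N nb kap (t + 1)) + ∑ l, P.Pr (nb l (t + 1)) := by
    intro t
    unfold FP.Pr
    rw [← P.E_sum, ← P.E_sub, ← P.E_add]
    exact P.E_mono fun w _ => anc_tel P N nb kap t w
  have h3 : kap * ∑ t ∈ range n, P.Pr (anc P N nb kap t) ≤
      ∑ t ∈ range n, (P.Pr (some_ P N nb kap t) - P.Pr (some_ P N nb kap (t + 1)) + ∑ l, P.Pr (nb l (t + 1))) := by
    rw [Finset.mul_sum]
    exact Finset.sum_le_sum fun t _ => (h1 t).trans (h2 t)
  rw [Finset.sum_add_distrib, Finset.sum_comm (s := range n)] at h3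
  have h4 : ∑ t ∈ range n, (P.Pr (some_ P N nb kap t) - P.Pr (some_ P N nb kap (t + 1))) =
      P.Pr (some_ P N nb kap 0) - P.Pr (some_ P N nb kap n) := Finset.sum_range_sub' _ n
  have h5 : P.Pr (some_ P N nb kap 0) = 0 := by
    have : P.Pr (some_ P N nb kap 0) = P.E (fun _ => (0 : ℝ)) :=
      P.E_congr fun w _ => ind_not fun ⟨l, hl⟩ => hl
    rw [this, P.E_const]
  have h6 := P.Pr_nonneg (some_ P N nb kap n)
  linarith

/-- at every time the share of the points with a bad label is less than `kap` -/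
theorem share_lt (hk : 0 < kap) (t : ℕ) {w : Om} :
    P.ce (N t) (fun v => ind (some_ P N nb kap t v)) w < kap := by
  have h0 : ∀ (s : ℕ) (f : Om → ℝ), (∀ v, N s v = N s w → f v = 0) → P.ce (N s) f w = 0 := by
    intro s f hf
    unfold FP.ce
    have : P.E (fun v => ind (N s v = N s w) * f v) = P.E (fun _ => (0 : ℝ)) := by
      refine P.E_congr fun v _ => ?_
      by_cases h : N s v = N s w
      · rw [hf v h, mul_zero]
      · rw [ind_not h, zero_mul]
    rw [this, P.E_const, zero_div]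
  cases t with
  | zero =>
    rw [h0 0 _ fun v _ => ind_not fun ⟨l, hl⟩ => hl]
    exact hk
  | succ t =>
    by_cases ha : anc P N nb kap t w
    · rw [h0 (t + 1) _ fun v hv => ind_not fun ⟨l, hl⟩ => hl.2 ((anc_loc P N nb kap hv).2 ha)]
      exact hk
    · refine lt_of_le_of_lt (P.ce_mono (g := fun v => ind (cand P N nb kap t v)) (fun v _ => ind_mono fun ⟨l, hl⟩ =>
        ⟨l, hl.1⟩) w) (not_le.1 ha)

/-- all labels bad once: then at the last time or just before an anchor -/
theorem allbad_le (n : ℕ) :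
    P.Pr (fun w => ∃ t, t ≤ n ∧ all_ P N nb kap t w) ≤
      P.Pr (all_ P N nb kap n) + ∑ t ∈ range n, P.Pr (fun w => all_ P N nb kap t w ∧ anc P N nb kap t w) := by
  classical
  have key : ∀ w, ∀ m, (∃ t, t ≤ m ∧ all_ P N nb kap t w) →
      all_ P N nb kap m w ∨ ∃ t ∈ range m, all_ P N nb kap t w ∧ anc P N nb kap t w := by
    intro w m
    induction m with
    | zero =>
      rintro ⟨t, ht, h⟩
      obtain rfl : t = 0 := by omega
      exact Or.inl h
    | succ m ih =>
      rintro ⟨t, ht, h⟩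
      rcases Nat.lt_or_ge m t with h1 | h1
      · obtain rfl : t = m + 1 := by omega
        exact Or.inl h
      · rcases ih ⟨t, h1, h⟩ with h2 | ⟨s, hs, h2⟩
        · by_cases ha : anc P N nb kap m w
          · exact Or.inr ⟨m, mem_range.2 (Nat.lt_succ_self m), h2, ha⟩
          · exact Or.inl fun l => ⟨Or.inl (h2 l), ha⟩
        · exact Or.inr ⟨s, mem_range.2 ((mem_range.1 hs).trans (Nat.lt_succ_self m)), h2⟩
  refine (P.Pr_mono fun w _ h => key w n h).trans ((P.Pr_or_le _ _).trans ?_)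
  have := P.Pr_ex_le (range n) (fun t w => all_ P N nb kap t w ∧ anc P N nb kap t w)
  linarith

end gen

/-! ## Loomis-Whitney -/

section prod

open Pool.Agent.GM Pool.Agent.GMH

variable {ι Pt : Type} [Fintype ι] [DecidableEq ι] [Fintype Pt] (μ : Wts ι Pt) {κ : Type*} (c : ℕ → ι → Pt → κ)
  (nb : ι → ℕ → (ι → Pt) → Prop) (kap : ℝ)

/-- the raw events are functions of the other coordinates and of the node -/
def Loc : Prop := ∀ l t v w, off l v = off l w → nd c t v = nd c t w → (nb l t v ↔ nb l t w)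

variable {c nb}

theorem bad_loc (hc : Rf c) (hnb : Loc c nb) (t : ℕ) : ∀ l v w, off l v = off l w → nd c t v = nd c t w →
    (bad μ.fp (fun t => nd c t) nb kap t l v ↔ bad μ.fp (fun t => nd c t) nb kap t l w) := by
  induction t with
  | zero => exact fun _ _ _ _ _ => Iff.rfl
  | succ t ih =>
    intro l v w h1 h2
    rw [bad_succ, bad_succ, ih l v w h1 (nd_filt hc t v w h2), hnb l (t + 1) v w h1 h2,
      anc_loc μ.fp (fun t => nd c t) nb kap h2]

theorem LW_all [Nonempty ι] (hc : Rf c) (hnb : Loc c nb) (hk : 0 < kap) (h2 : 2 ≤ Fintype.card ι) (t : ℕ)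
    {x : ι → Pt} (hx : μ.fp.p x ≠ 0) :
    μ.fp.ce (nd c t) (fun z => ind (all_ μ.fp (fun t => nd c t) nb kap t z)) x ≤
      (Fintype.card ι * kap) ^ (1 - (1 : ℝ) / Fintype.card ι)⁻¹ := by
  classical
  set N : ∀ t, (ι → Pt) → (ι → κ) := fun t => nd c t with hN
  have hk2 : (2 : ℝ) ≤ Fintype.card ι := by exact_mod_cast h2
  have he : 0 < 1 - (1 : ℝ) / Fintype.card ι := by
    rw [sub_pos, div_lt_one (by linarith)]
    linarith
  set D : ι → (ι → Pt) → Prop := fun l v => ∃ w, off l w = off l v ∧ nd c t w = nd c t x ∧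
    bad μ.fp N nb kap t l w with hD
  have hDl : ∀ l v w, off l v = off l w → (D l v ↔ D l w) := fun l v w h => by
    rw [hD]
    constructor
    · rintro ⟨z, h1, h2, h3⟩
      exact ⟨z, h1.trans h, h2, h3⟩
    · rintro ⟨z, h1, h2, h3⟩
      exact ⟨z, h1.trans h.symm, h2, h3⟩
  have hDe : ∀ l v, nd c t v = nd c t x → (D l v ↔ bad μ.fp N nb kap t l v) := fun l v hv => by
    constructor
    · rintro ⟨z, h1, h2, h3⟩
      exact (bad_loc μ kap hc hnb t l z v h1 (h2.trans hv.symm)).1 h3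
    · intro h
      exact ⟨v, rfl, hv, h⟩
  have hcong : ∀ (f g : (ι → Pt) → ℝ), (∀ v, nd c t v = nd c t x → f v = g v) →
      μ.fp.ce (nd c t) f x = μ.fp.ce (nd c t) g x := by
    intro f g hfg
    unfold FP.ce
    congr 1
    refine μ.fp.E_congr fun v _ => ?_
    by_cases h : nd c t v = nd c t x
    · rw [hfg v h]
    · rw [ind_not h, zero_mul, zero_mul]
  set q := μ.fp.ce (nd c t) (fun z => ind (all_ μ.fp N nb kap t z)) x with hq
  have hq0 : 0 ≤ q := μ.fp.ce_nonneg (fun w _ => ind_nonneg _) x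
  rcases hq0.eq_or_lt with h0 | h0
  · rw [← h0]
    positivity
  have h1 : q ≤ μ.fp.ce (nd c t) (fun z => ind (True ∧ ∀ l, D l z)) x := by
    refine le_of_eq ?_
    rw [hq]
    refine hcong _ _ fun v hv => ?_
    congr 1
    refine propext ⟨fun h => ⟨trivial, fun l => (hDe l v hv).2 (h l)⟩, fun h l => (hDe l v hv).1 (h.2 l)⟩
  have h3 := LW_nd (c := c) μ t hx h0 (fun _ => True) D hDl h1
  have h4 : ∑ l, μ.fp.ce (nd c t) (fun z => ind (D l z)) x ≤ Fintype.card ι * kap := by
    have h5 : ∀ l ∈ (univ : Finset ι), μ.fp.ce (nd c t) (fun z => ind (D l z)) x ≤ kap := by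
      intro l _
      rw [hcong (fun z => ind (D l z)) (fun z => ind (bad μ.fp N nb kap t l z)) fun v hv => by
        congr 1
        exact propext (hDe l v hv)]
      refine le_trans (μ.fp.ce_mono (g := fun v => ind (some_ μ.fp N nb kap t v)) (fun v _ => ind_mono fun h =>
        ⟨l, h⟩) x) (share_lt μ.fp N nb kap hk t).le
    calc _ ≤ ∑ l : ι, kap := Finset.sum_le_sum h5
      _ = Fintype.card ι * kap := by rw [Finset.sum_const, card_univ, nsmul_eq_mul]
  have h5 : q ^ (1 - (1 : ℝ) / Fintype.card ι) ≤ Fintype.card ι * kap := h3.trans h4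
  have h6 := Real.rpow_le_rpow (Real.rpow_nonneg hq0 _) h5 (inv_nonneg.2 he.le)
  rwa [← Real.rpow_mul hq0, mul_inv_cancel₀ he.ne', Real.rpow_one] at h6

/-- a nonnegative function in a node which shrinks by at most the factor `h` -/
theorem ce_shrink {Om : Type*} [Fintype Om] (P : FP Om) {α β : Type*} {X : Om → α} {Y : Om → β} (hXY : Fac X Y)
    {f : Om → ℝ} (hf : ∀ v, 0 ≤ f v) {w : Om} (hw : P.p w ≠ 0) {h : ℝ} (hm : P.m Y w ≤ h * P.m X w) :
    P.ce X f w ≤ h * P.ce Y f w := by
  unfold FP.ce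
  have hX := P.m_pos X hw
  have hY := P.m_pos Y hw
  have h1 : P.E (fun v => ind (X v = X w) * f v) ≤ P.E (fun v => ind (Y v = Y w) * f v) :=
    P.E_mono fun v _ => mul_le_mul_of_nonneg_right (ind_mono fun e => hXY v w e) (hf v)
  have h0 : 0 ≤ P.E (fun v => ind (X v = X w) * f v) := P.E_nonneg fun v _ => mul_nonneg (ind_nonneg _) (hf v)
  rw [mul_div_assoc', div_le_div_iff₀ hX hY]
  calc P.E (fun v => ind (X v = X w) * f v) * P.m Y w ≤ P.E (fun v => ind (X v = X w) * f v) * (h * P.m X w) :=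
        mul_le_mul_of_nonneg_left hm h0
    _ ≤ P.E (fun v => ind (Y v = Y w) * f v) * (h * P.m X w) := by
        refine mul_le_mul_of_nonneg_right h1 ?_
        linarith
    _ = h * P.E (fun v => ind (Y v = Y w) * f v) * P.m X w := by ring

/-- at every time of an epoch one label is not bad, outside a small probability -/
theorem allbad [Nonempty ι] (hc : Rf c) (hnb : Loc c nb) (hk : 0 < kap) (h2 : 2 ≤ Fintype.card ι) {h : ℝ}
    (hh : 0 ≤ h) (hsh : ∀ t x, μ.fp.p x ≠ 0 → μ.fp.m (nd c t) x ≤ h * μ.fp.m (nd c (t + 1)) x) (n : ℕ) :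
    μ.fp.Pr (fun w => ∃ t, t ≤ n ∧ all_ μ.fp (fun t => nd c t) nb kap t w) ≤
      (Fintype.card ι * kap) ^ (1 - (1 : ℝ) / Fintype.card ι)⁻¹ *
        (1 + h * ∑ t ∈ range n, μ.fp.Pr (anc μ.fp (fun t => nd c t) nb kap t)) := by
  classical
  set N : ∀ t, (ι → Pt) → (ι → κ) := fun t => nd c t with hN
  set R := (Fintype.card ι * kap) ^ (1 - (1 : ℝ) / Fintype.card ι)⁻¹ with hR
  have hLW : ∀ t x, μ.fp.p x ≠ 0 → μ.fp.ce (nd c t) (fun z => ind (all_ μ.fp N nb kap t z)) x ≤ R :=
    fun t x hx => LW_all μ kap hc hnb hk h2 t hx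
  refine (allbad_le μ.fp N nb kap n).trans ?_
  have e1 : μ.fp.Pr (all_ μ.fp N nb kap n) ≤ R := by
    unfold FP.Pr
    rw [← μ.fp.E_ce (nd c n)]
    exact μ.fp.E_le_const fun w hw => hLW n w hw
  have e2 : ∀ t ∈ range n, μ.fp.Pr (fun w => all_ μ.fp N nb kap t w ∧ anc μ.fp N nb kap t w) ≤
      R * h * μ.fp.Pr (anc μ.fp N nb kap t) := by
    intro t _
    have e3 : μ.fp.Pr (fun w => all_ μ.fp N nb kap t w ∧ anc μ.fp N nb kap t w) =
        μ.fp.E (fun w => ind (anc μ.fp N nb kap t w) *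
          μ.fp.ce (N (t + 1)) (fun v => ind (all_ μ.fp N nb kap t v)) w) := by
      rw [μ.fp.E_mul_ce (X := N (t + 1)) (h := fun w => ind (anc μ.fp N nb kap t w))
        (Fac.ind fun v w h => anc_loc μ.fp N nb kap h)]
      refine μ.fp.E_congr fun w _ => ?_
      by_cases ha : anc μ.fp N nb kap t w
      · by_cases hb : all_ μ.fp N nb kap t w
        · rw [ind_of ha, ind_of hb, ind_of (⟨hb, ha⟩ : all_ μ.fp N nb kap t w ∧ anc μ.fp N nb kap t w), one_mul]
        · rw [ind_not hb, ind_not (fun h => hb h.1 : ¬ (all_ μ.fp N nb kap t w ∧ anc μ.fp N nb kap t w)), mul_zero]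
      · rw [ind_not ha, ind_not (fun h => ha h.2 : ¬ (all_ μ.fp N nb kap t w ∧ anc μ.fp N nb kap t w)), zero_mul]
    rw [e3]
    unfold FP.Pr
    rw [← μ.fp.E_smul]
    refine μ.fp.E_mono fun w hw => ?_
    rw [mul_comm]
    refine mul_le_mul_of_nonneg_right ?_ (ind_nonneg _)
    refine (ce_shrink μ.fp (nd_filt hc t) (fun v => ind_nonneg _) hw (hsh t w hw)).trans ?_
    rw [mul_comm R h]
    exact mul_le_mul_of_nonneg_left (hLW t w hw) hh
  have e4 := Finset.sum_le_sum e2
  rw [← Finset.mul_sum] at e4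
  calc _ ≤ R + R * h * ∑ t ∈ range n, μ.fp.Pr (anc μ.fp N nb kap t) := add_le_add e1 e4
    _ = _ := by ring

/-- the same with the number of the raw events -/
theorem allbad' [Nonempty ι] (hc : Rf c) (hnb : Loc c nb) (hk : 0 < kap) (h2 : 2 ≤ Fintype.card ι) {h : ℝ}
    (hh : 0 ≤ h) (hsh : ∀ t x, μ.fp.p x ≠ 0 → μ.fp.m (nd c t) x ≤ h * μ.fp.m (nd c (t + 1)) x) (n : ℕ) :
    μ.fp.Pr (fun w => ∃ t, t ≤ n ∧ all_ μ.fp (fun t => nd c t) nb kap t w) ≤
      (Fintype.card ι * kap) ^ (1 - (1 : ℝ) / Fintype.card ι)⁻¹ *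
        (1 + h / kap * ∑ l, ∑ t ∈ range n, μ.fp.Pr (nb l (t + 1))) := by
  refine (allbad μ kap hc hnb hk h2 hh hsh n).trans ?_
  refine mul_le_mul_of_nonneg_left ?_ (Real.rpow_nonneg (by positivity) _)
  have h1 := anc_count μ.fp (fun t => nd c t) nb kap n
  have h3 : ∑ t ∈ range n, μ.fp.Pr (anc μ.fp (fun t => nd c t) nb kap t) ≤
      (∑ l, ∑ t ∈ range n, μ.fp.Pr (nb l (t + 1))) / kap := by
    rw [le_div_iff₀ hk, mul_comm]
    exact h1
  have h4 := mul_le_mul_of_nonneg_left h3 hh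
  have e : h * ((∑ l, ∑ t ∈ range n, μ.fp.Pr (nb l (t + 1))) / kap) =
      h / kap * ∑ l, ∑ t ∈ range n, μ.fp.Pr (nb l (t + 1)) := by ring
  linarith

end prod

/-! ## special atoms -/

section special

variable {Om : Type*} [Fintype Om] (P : FP Om) {κ : ℕ → Type*} (W : ∀ t, Om → κ t) (an : ℕ → Om → Prop)
  (ch : ℕ → Om → Prop) (kap : ℝ)

/-- special since the last anchor -/
def spc : ℕ → Om → Prop
  | 0 => fun w => kap ≤ P.ce (W 0) (fun v => ind (ch 0 v)) w
  | t + 1 => fun w => (spc t w ∨ kap ≤ P.ce (W (t + 1)) (fun v => ind (ch (t + 1) v)) w) ∧ ¬ an (t + 1) w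

/-- becomes special at the time `t + 1` -/
def nsp (t : ℕ) (w : Om) : Prop :=
  ¬ spc P W an ch kap t w ∧ kap ≤ P.ce (W (t + 1)) (fun v => ind (ch (t + 1) v)) w ∧ ¬ an (t + 1) w

variable {W an}

theorem spc_loc (hW : Filt W) (han : ∀ t v w, W t v = W t w → (an t v ↔ an t w)) (t : ℕ) :
    ∀ v w, W t v = W t w → (spc P W an ch kap t v ↔ spc P W an ch kap t w) := by
  induction t with
  | zero =>
    intro v w h
    unfold spc
    rw [P.ce_fac (W 0) _ v w h]
  | succ t ih =>
    intro v w h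
    unfold spc
    rw [P.ce_fac (W (t + 1)) _ v w h, ih v w (hW t v w h), han (t + 1) v w h]

theorem nsp_loc (hW : Filt W) (han : ∀ t v w, W t v = W t w → (an t v ↔ an t w)) (t : ℕ) :
    ∀ v w, W (t + 1) v = W (t + 1) w → (nsp P W an ch kap t v ↔ nsp P W an ch kap t w) := by
  intro v w h
  unfold nsp
  rw [P.ce_fac (W (t + 1)) _ v w h, spc_loc P ch kap hW han t v w (hW t v w h), han (t + 1) v w h]

/-- the number of the epochs with a special atom, against the number of the changes; `ch` is reset at the anchors -/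
theorem spec_count (hW : Filt W) (han : ∀ t v w, W t v = W t w → (an t v ↔ an t w))
    (hch : ∀ t w, an (t + 1) w → ¬ ch (t + 1) w) (n : ℕ) :
    kap * ∑ t ∈ range n, P.Pr (nsp P W an ch kap t) ≤
      P.Pr (ch 0) + ∑ t ∈ range n, P.Pr (fun w => ¬ ch t w ∧ ch (t + 1) w) := by
  classical
  have h1 : ∀ t, kap * P.Pr (nsp P W an ch kap t) ≤ P.Pr (fun w => nsp P W an ch kap t w ∧ ch (t + 1) w) := by
    intro t
    have e1 : P.Pr (fun w => nsp P W an ch kap t w ∧ ch (t + 1) w) =
        P.E (fun w => ind (nsp P W an ch kap t w) * P.ce (W (t + 1)) (fun v => ind (ch (t + 1) v)) w) := by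
      rw [P.E_mul_ce (X := W (t + 1)) (h := fun w => ind (nsp P W an ch kap t w))
        (Fac.ind fun v w h => nsp_loc P ch kap hW han t v w h)]
      refine P.E_congr fun w _ => ?_
      by_cases ha : nsp P W an ch kap t w
      · by_cases hb : ch (t + 1) w
        · rw [ind_of ha, ind_of hb, ind_of (⟨ha, hb⟩ : nsp P W an ch kap t w ∧ ch (t + 1) w), one_mul]
        · rw [ind_not hb, ind_not (fun h => hb h.2 : ¬ (nsp P W an ch kap t w ∧ ch (t + 1) w)), mul_zero]
      · rw [ind_not ha, ind_not (fun h => ha h.1 : ¬ (nsp P W an ch kap t w ∧ ch (t + 1) w)), zero_mul]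
    rw [e1]
    unfold FP.Pr
    rw [← P.E_smul]
    refine P.E_mono fun w _ => ?_
    by_cases ha : nsp P W an ch kap t w
    · rw [ind_of ha, one_mul, mul_one]
      exact ha.2.1
    · rw [ind_not ha, zero_mul, mul_zero]
  have h2 : ∀ t w, ind (nsp P W an ch kap t w ∧ ch (t + 1) w) ≤
      ind (ch t w ∧ ¬ spc P W an ch kap t w) - ind (ch (t + 1) w ∧ ¬ spc P W an ch kap (t + 1) w) +
        ind (¬ ch t w ∧ ch (t + 1) w) := by
    intro t w
    by_cases hN : nsp P W an ch kap t w ∧ ch (t + 1) w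
    · obtain ⟨⟨n1, n2, n3⟩, n4⟩ := hN
      have hs : spc P W an ch kap (t + 1) w := ⟨Or.inr n2, n3⟩
      rw [ind_not (fun h => h.2 hs : ¬ (ch (t + 1) w ∧ ¬ spc P W an ch kap (t + 1) w))]
      by_cases hc : ch t w
      · rw [ind_of (⟨hc, n1⟩ : ch t w ∧ ¬ spc P W an ch kap t w)]
        linarith [ind_le_one (nsp P W an ch kap t w ∧ ch (t + 1) w), ind_nonneg (¬ ch t w ∧ ch (t + 1) w)]
      · rw [ind_of (⟨hc, n4⟩ : ¬ ch t w ∧ ch (t + 1) w)]
        linarith [ind_le_one (nsp P W an ch kap t w ∧ ch (t + 1) w), ind_nonneg (ch t w ∧ ¬ spc P W an ch kap t w)]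
    · rw [ind_not hN]
      have h3 : ind (ch (t + 1) w ∧ ¬ spc P W an ch kap (t + 1) w) ≤
          ind (ch t w ∧ ¬ spc P W an ch kap t w) + ind (¬ ch t w ∧ ch (t + 1) w) := by
        by_cases hd : ch (t + 1) w ∧ ¬ spc P W an ch kap (t + 1) w
        · by_cases hc : ch t w
          · have ha : ¬ an (t + 1) w := fun h => hch t w h hd.1
            have hs : ¬ spc P W an ch kap t w := fun h => hd.2 ⟨Or.inl h, ha⟩
            rw [ind_of (⟨hc, hs⟩ : ch t w ∧ ¬ spc P W an ch kap t w)]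
            linarith [ind_le_one (ch (t + 1) w ∧ ¬ spc P W an ch kap (t + 1) w),
              ind_nonneg (¬ ch t w ∧ ch (t + 1) w)]
          · rw [ind_of (⟨hc, hd.1⟩ : ¬ ch t w ∧ ch (t + 1) w)]
            linarith [ind_le_one (ch (t + 1) w ∧ ¬ spc P W an ch kap (t + 1) w),
              ind_nonneg (ch t w ∧ ¬ spc P W an ch kap t w)]
        · rw [ind_not hd]
          linarith [ind_nonneg (¬ ch t w ∧ ch (t + 1) w), ind_nonneg (ch t w ∧ ¬ spc P W an ch kap t w)]
      linarith
  have h3 : ∀ t, P.Pr (fun w => nsp P W an ch kap t w ∧ ch (t + 1) w) ≤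
      P.Pr (fun w => ch t w ∧ ¬ spc P W an ch kap t w) - P.Pr (fun w => ch (t + 1) w ∧ ¬ spc P W an ch kap (t + 1) w) +
        P.Pr (fun w => ¬ ch t w ∧ ch (t + 1) w) := by
    intro t
    unfold FP.Pr
    rw [← P.E_sub, ← P.E_add]
    exact P.E_mono fun w _ => h2 t w
  have h4 : kap * ∑ t ∈ range n, P.Pr (nsp P W an ch kap t) ≤
      ∑ t ∈ range n, (P.Pr (fun w => ch t w ∧ ¬ spc P W an ch kap t w) -
        P.Pr (fun w => ch (t + 1) w ∧ ¬ spc P W an ch kap (t + 1) w) + P.Pr (fun w => ¬ ch t w ∧ ch (t + 1) w)) := by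
    rw [Finset.mul_sum]
    exact Finset.sum_le_sum fun t _ => (h1 t).trans (h3 t)
  rw [Finset.sum_add_distrib] at h4
  have h5 : ∑ t ∈ range n, (P.Pr (fun w => ch t w ∧ ¬ spc P W an ch kap t w) -
        P.Pr (fun w => ch (t + 1) w ∧ ¬ spc P W an ch kap (t + 1) w)) =
      P.Pr (fun w => ch 0 w ∧ ¬ spc P W an ch kap 0 w) - P.Pr (fun w => ch n w ∧ ¬ spc P W an ch kap n w) :=
    Finset.sum_range_sub' (fun t => P.Pr (fun w => ch t w ∧ ¬ spc P W an ch kap t w)) n
  have h6 := P.Pr_nonneg (fun w => ch n w ∧ ¬ spc P W an ch kap n w)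
  have h7 : P.Pr (fun w => ch 0 w ∧ ¬ spc P W an ch kap 0 w) ≤ P.Pr (ch 0) := P.Pr_mono fun w _ h => h.1
  linarith

/-- a point which is not special lies in an atom with a small share of changed points -/
theorem spec_share (hch : ∀ t w, an (t + 1) w → ¬ ch (t + 1) w)
    (han : ∀ t v w, W t v = W t w → (an t v ↔ an t w)) (hk : 0 < kap) (t : ℕ) {w : Om}
    (h : ¬ spc P W an ch kap t w) : P.ce (W t) (fun v => ind (ch t v)) w < kap := by
  cases t with
  | zero => exact not_le.1 h
  | succ t =>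
    by_cases ha : an (t + 1) w
    · have e : P.ce (W (t + 1)) (fun v => ind (ch (t + 1) v)) w = 0 := by
        unfold FP.ce
        have : P.E (fun v => ind (W (t + 1) v = W (t + 1) w) * ind (ch (t + 1) v)) = P.E (fun _ => (0 : ℝ)) := by
          refine P.E_congr fun v _ => ?_
          by_cases h1 : W (t + 1) v = W (t + 1) w
          · rw [ind_not (hch t v ((han (t + 1) v w h1).2 ha)), mul_zero]
          · rw [ind_not h1, zero_mul]
        rw [this, P.E_const, zero_div]
      rw [e]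
      exact hk
    · by_contra hc
      exact h ⟨Or.inr (not_lt.1 hc), ha⟩

end special

end

end Pool.Agent.GML
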