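import Pool.Agent.M3.FPMart

/-!
# GML/FlagCov: the flag lemma (notes 4004 (1), 4013 (1), 4043 (3)), abstract, K-free

`Z t` filtration, `D t` factors through `Z (t + 1)`, `|D t| ≤ 1`, `Dd t` ARBITRARY events (dead points, resets allowed),
`g t = P(Dd t | Z t)`, `cov t = E[1_(Dd t) D t | Z t] - g t * E[D t | Z t]`.

* `flag_cov`: `∑_(t<n) E ind (g t ≤ u) cov_t ^ 2 ≤ 12 u (P(Dd n) + ∑_(t<n) P(Dd t ∧ ¬ Dd (t+1)))`;
* `flag_cov_mono`: monotone flags, `≤ 12 u P(Dd n)`;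
* `flag_cov_deaths`: the right side with the new deaths, `12 u (P(Dd 0) + ∑ P(¬ Dd t ∧ Dd (t+1)))`;
* `flag_cov_two`: two flags, `Dd2 \ Dd1`, `Dd1` monotone;
* `alive_ce`, `alive_E`: `E[1_alive D | Z] = (1 - g) E[D|Z] - cov` and its form with weights;
* `alive_bias`: the bias given alive, `|E[D | Z, alive] - E[D | Z]| ≤ 2 |cov|` where `g ≤ 1/2`;
* `flag_markov`: `E p 1(u' < g^Z) ≤ (u / u') E p` for weights `p` of a coarser atom where the share is `≤ u`;
* `flag_ever`: `c P(∃ t ≤ n, c ≤ g t) ≤ P(Dd n)` for monotone flags.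
-/

set_option autoImplicit false
set_option linter.unusedSectionVars false

namespace Pool.Agent.GML

open Finset Pool.Agent.PWZ Pool.Agent.M3

/-- `x ^ 2` up to `4 u`, then linear -/
noncomputable def fl (u x : ℝ) : ℝ := if x ≤ 4 * u then x ^ 2 else 8 * u * x - 16 * u ^ 2

theorem fl_nonneg {u x : ℝ} (hu : 0 ≤ u) (hx : 0 ≤ x) : 0 ≤ fl u x := by
  unfold fl
  split_ifs with h
  · positivity
  · push Not at h
    nlinarith

theorem fl_le {u x : ℝ} (hu : 0 ≤ u) (hx : 0 ≤ x) : fl u x ≤ 8 * u * x := by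
  unfold fl
  split_ifs with h
  · nlinarith
  · nlinarith [sq_nonneg u]

theorem fl_mono {u x y : ℝ} (hu : 0 ≤ u) (hx : 0 ≤ x) (hxy : x ≤ y) : fl u x ≤ fl u y := by
  unfold fl
  split_ifs with h1 h2 h2
  · nlinarith
  · push Not at h2
    nlinarith [sq_nonneg (x - 4 * u)]
  · exact absurd (hxy.trans h2) h1
  · nlinarith

theorem fl_lip {u x y : ℝ} (hu : 0 ≤ u) (hx : 0 ≤ x) (hxy : x ≤ y) : fl u y ≤ fl u x + 8 * u * (y - x) := by
  unfold fl
  split_ifs with h1 h2 h2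
  · nlinarith
  · exact absurd (hxy.trans h1) h2
  · push Not at h1
    nlinarith [sq_nonneg (x - 4 * u)]
  · nlinarith

/-- convexity -/
theorem fl_conv {u g y : ℝ} (hu : 0 ≤ u) (hg : 0 ≤ g) (hy : 0 ≤ y) :
    fl u g + 2 * min g (4 * u) * (y - g) ≤ fl u y := by
  unfold fl
  split_ifs with h1 h2 h2
  · rw [min_eq_left h1]; nlinarith [sq_nonneg (y - g)]
  · rw [min_eq_left h1]
    push Not at h2
    nlinarith [mul_nonneg (sub_nonneg.mpr h1) (sub_nonneg.mpr h2.le), sq_nonneg (g - 4 * u)]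
  · push Not at h1
    rw [min_eq_right h1.le]
    nlinarith [sq_nonneg (y - 4 * u)]
  · push Not at h1
    rw [min_eq_right h1.le]
    nlinarith

/-- small `y` -/
theorem fl_sq {u g y : ℝ} (hu : 0 ≤ u) (hg : 0 ≤ g) (hgu : g ≤ u) (hy : y ≤ 4 * u) :
    (y - g) ^ 2 = fl u y - fl u g - 2 * g * (y - g) := by
  unfold fl
  rw [if_pos hy, if_pos (by linarith)]
  ring

/-- large `y` -/
theorem fl_big {u g y : ℝ} (hu : 0 ≤ u) (hg : 0 ≤ g) (hgu : g ≤ u) (hy : ¬ y ≤ 4 * u) :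
    2 * u * (y - g) ≤ fl u y - fl u g - 2 * g * (y - g) := by
  push Not at hy
  unfold fl
  rw [if_neg (not_le.mpr hy), if_pos (by linarith)]
  nlinarith [mul_nonneg hu (sub_nonneg.mpr hgu), mul_nonneg (sub_nonneg.mpr hgu) (sub_nonneg.mpr hy.le)]

end Pool.Agent.GML

namespace Pool.Agent.M3.FP

open Finset Pool.Agent.PWZ Pool.Agent.GML

variable {Om : Type*} [Fintype Om] (P : FP Om)

/-- share of the dead points and its covariance with `D` -/
noncomputable def cov {κ : Type*} (X : Om → κ) (Dd : Om → Prop) (D : Om → ℝ) (w : Om) : ℝ :=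
  P.ce X (fun v => ind (Dd v) * D v) w - P.ce X (fun v => ind (Dd v)) w * P.ce X D w

theorem cov_fac {κ : Type*} (X : Om → κ) (Dd : Om → Prop) (D : Om → ℝ) : Fac X (P.cov X Dd D) :=
  (P.ce_fac X _).sub ((P.ce_fac X _).mul (P.ce_fac X _))

theorem share_nonneg {κ : Type*} (X : Om → κ) (Dd : Om → Prop) (w : Om) : 0 ≤ P.ce X (fun v => ind (Dd v)) w :=
  P.ce_nonneg (fun _ _ => ind_nonneg _) w

/-- one step -/
theorem flag_step {κ ι : Type*} {X : Om → κ} {Y : Om → ι} (hYX : Fac Y X) (Dd : Om → Prop) {D : Om → ℝ}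
    (hD : Fac Y D) (hD1 : ∀ w, P.p w ≠ 0 → |D w| ≤ 1) {u : ℝ} (hu : 0 ≤ u) {w : Om} (hw : P.p w ≠ 0) :
    ind (P.ce X (fun v => ind (Dd v)) w ≤ u) * P.cov X Dd D w ^ 2 ≤
      3 / 2 * (P.ce X (fun v => fl u (P.ce Y (fun v => ind (Dd v)) v)) w - fl u (P.ce X (fun v => ind (Dd v)) w)) := by
  set q : Om → ℝ := P.ce Y (fun v => ind (Dd v)) with hq
  set g : Om → ℝ := P.ce X (fun v => ind (Dd v)) with hg
  have hgf : Fac X g := P.ce_fac X _
  have hg0 : 0 ≤ g w := P.ce_nonneg (fun _ _ => ind_nonneg _) w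
  have hq0 : ∀ v, 0 ≤ q v := fun v => P.ce_nonneg (fun _ _ => ind_nonneg _) v
  have htow : P.ce X q w = g w := P.ce_tower hYX _ w
  have hconv : 0 ≤ P.ce X (fun v => fl u (q v)) w - fl u (g w) := by
    have h1 : P.ce X (fun v => fl u (g v) + 2 * min (g v) (4 * u) * (q v - g v)) w ≤
        P.ce X (fun v => fl u (q v)) w :=
      P.ce_mono (fun v _ => fl_conv hu (P.ce_nonneg (fun _ _ => ind_nonneg _) v) (hq0 v)) w
    have h2 : P.ce X (fun v => fl u (g v) + 2 * min (g v) (4 * u) * (q v - g v)) w = fl u (g w) := by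
      rw [P.ce_add, P.ce_of_fac (hgf.comp (fun x => fl u x)) hw,
        P.ce_mul (hgf.comp (fun x => 2 * min x (4 * u))), P.ce_sub, htow, P.ce_of_fac hgf hw]
      ring
    linarith
  by_cases hgu : g w ≤ u
  · rw [ind_of hgu, one_mul]
    -- the covariance
    have hcov : P.cov X Dd D w = P.ce X (fun v => (q v - g v) * D v) w := by
      have e1 : P.ce X (fun v => ind (Dd v) * D v) w = P.ce X (fun v => q v * D v) w := by
        rw [← P.ce_tower hYX (fun v => ind (Dd v) * D v)]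
        exact P.ce_congr (fun v _ => P.ce_mul' hD _ v) w
      have e2 : P.ce X (fun v => (q v - g v) * D v) w =
          P.ce X (fun v => q v * D v) w - P.ce X (fun v => g v * D v) w := by
        rw [← P.ce_sub]
        exact P.ce_congr (fun v _ => by ring) w
      rw [e2, P.ce_mul hgf, ← e1]
      rfl
    set a : ℝ := P.ce X (fun v => ind (q v ≤ 4 * u) * |q v - g v|) w with ha
    set b : ℝ := P.ce X (fun v => ind (¬ q v ≤ 4 * u) * |q v - g v|) w with hb
    set H1 : ℝ := P.ce X (fun v => ind (q v ≤ 4 * u) * (fl u (q v) - fl u (g v) - 2 * g v * (q v - g v))) w with hH1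
    set H2 : ℝ := P.ce X (fun v => ind (¬ q v ≤ 4 * u) * (fl u (q v) - fl u (g v) - 2 * g v * (q v - g v))) w with hH2
    have ha0 : 0 ≤ a := P.ce_nonneg (fun v _ => mul_nonneg (ind_nonneg _) (abs_nonneg _)) w
    have hb0 : 0 ≤ b := P.ce_nonneg (fun v _ => mul_nonneg (ind_nonneg _) (abs_nonneg _)) w
    have hab : |P.cov X Dd D w| ≤ a + b := by
      rw [hcov, ha, hb, ← P.ce_add]
      refine (P.abs_ce_le X _ w).trans (P.ce_mono (fun v hv => ?_) w)
      rw [abs_mul, ← add_mul]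
      have e : ind (q v ≤ 4 * u) + ind (¬ q v ≤ 4 * u) = 1 := by rw [ind_not_eq]; ring
      rw [e, one_mul]
      exact mul_le_of_le_one_right (abs_nonneg _) (hD1 v hv)
    -- everything happens on the fibre of `w`, where `g v = g w`
    have hloc : ∀ f f' : Om → ℝ, (∀ v, X v = X w → f v ≤ f' v) → P.ce X f w ≤ P.ce X f' w := by
      intro f f' h
      have e : ∀ f : Om → ℝ, P.ce X f w = P.ce X (fun v => ind (X v = X w) * f v) w := by
        intro f
        rw [P.ce_mul (h := fun v => ind (X v = X w)) (Fac.ind (fun v v' hv => by rw [hv])), ind_of rfl, one_mul]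
      rw [e f, e f']
      refine P.ce_mono (fun v _ => ?_) w
      by_cases hx : X v = X w
      · rw [ind_of hx, one_mul, one_mul]; exact h v hx
      · rw [ind_not hx, zero_mul, zero_mul]
    have haH : a ^ 2 ≤ H1 := by
      refine (P.ce_sq_le X _ w).trans (hloc _ _ (fun v hv => ?_))
      have hgv : g v = g w := hgf v w hv
      by_cases h : q v ≤ 4 * u
      · rw [ind_of h, one_mul, one_mul, sq_abs]
        exact (fl_sq hu (hgv ▸ hg0) (hgv ▸ hgu) h).le
      · rw [ind_not h]; simp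
    have hbH : 2 * u * b ≤ H2 := by
      rw [hb, ← P.ce_smul]
      refine hloc _ _ (fun v hv => ?_)
      have hgv : g v = g w := hgf v w hv
      by_cases h : q v ≤ 4 * u
      · rw [ind_not (not_not.mpr h)]; simp
      · rw [ind_of h, one_mul, one_mul]
        have hpos : 0 ≤ q v - g v := by
          push Not at h
          rw [hgv]; linarith
        rw [abs_of_nonneg hpos]
        exact fl_big hu (hgv ▸ hg0) (hgv ▸ hgu) h
    have hbu : b ≤ u := by
      refine le_trans ?_ hgu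
      rw [← htow]
      refine hloc _ _ (fun v hv => ?_)
      have hgv : g v = g w := hgf v w hv
      by_cases h : q v ≤ 4 * u
      · rw [ind_not (not_not.mpr h), zero_mul]; exact hq0 v
      · rw [ind_of h, one_mul]
        have hpos : 0 ≤ q v - g v := by
          push Not at h
          rw [hgv]; linarith
        rw [abs_of_nonneg hpos, hgv]
        linarith
    have hHs : H1 + H2 = P.ce X (fun v => fl u (q v)) w - fl u (g w) := by
      rw [hH1, hH2, ← P.ce_add]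
      have e1 : P.ce X (fun v => ind (q v ≤ 4 * u) * (fl u (q v) - fl u (g v) - 2 * g v * (q v - g v)) +
          ind (¬ q v ≤ 4 * u) * (fl u (q v) - fl u (g v) - 2 * g v * (q v - g v))) w =
          P.ce X (fun v => fl u (q v) - (fl u (g v) + 2 * g v * (q v - g v))) w := by
        refine P.ce_congr (fun v _ => ?_) w
        rw [ind_not_eq]; ring
      rw [e1, P.ce_sub, P.ce_add, P.ce_of_fac (hgf.comp (fun x => fl u x)) hw,
        P.ce_mul (hgf.comp (fun x => 2 * x)), P.ce_sub, htow, P.ce_of_fac hgf hw]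
      ring
    have hH1n : 0 ≤ H1 := (sq_nonneg a).trans haH
    have hb2 : b ^ 2 ≤ H2 / 2 := by nlinarith
    -- `(a + b)^2 ≤ 3/2 (H1 + H2)`
    have hfin : (a + b) ^ 2 ≤ 3 / 2 * (H1 + H2) := by
      nlinarith [sq_nonneg (a - 2 * b)]
    rw [← hHs]
    calc P.cov X Dd D w ^ 2 = |P.cov X Dd D w| ^ 2 := (sq_abs _).symm
      _ ≤ (a + b) ^ 2 := pow_le_pow_left₀ (abs_nonneg _) hab 2
      _ ≤ _ := hfin
  · rw [ind_not hgu, zero_mul]
    positivity

variable {κ : ℕ → Type*} {Z : ∀ t, Om → κ t}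

/-- **the flag lemma** -/
theorem flag_cov (hZ : Filt Z) (Dd : ℕ → Om → Prop) {D : ℕ → Om → ℝ} (n : ℕ) (hD : ∀ t < n, Fac (Z (t + 1)) (D t))
    (hD1 : ∀ t < n, ∀ w, P.p w ≠ 0 → |D t w| ≤ 1) {u : ℝ} (hu : 0 ≤ u) :
    ∑ t ∈ range n, P.E (fun w => ind (P.ce (Z t) (fun v => ind (Dd t v)) w ≤ u) * P.cov (Z t) (Dd t) (D t) w ^ 2) ≤
      12 * u * (P.Pr (Dd n) + ∑ t ∈ range n, P.Pr (fun w => Dd t w ∧ ¬ Dd (t + 1) w)) := by
  set g : ℕ → Om → ℝ := fun t => P.ce (Z t) (fun v => ind (Dd t v)) with hg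
  have hstep : ∀ t < n, P.E (fun w => ind (g t w ≤ u) * P.cov (Z t) (Dd t) (D t) w ^ 2) ≤
      3 / 2 * (P.E (fun w => fl u (g (t + 1) w)) - P.E (fun w => fl u (g t w)) +
        8 * u * P.Pr (fun w => Dd t w ∧ ¬ Dd (t + 1) w)) := by
    intro t ht
    have h1 : P.E (fun w => ind (g t w ≤ u) * P.cov (Z t) (Dd t) (D t) w ^ 2) ≤
        P.E (fun w => 3 / 2 * (P.ce (Z t) (fun v => fl u (P.ce (Z (t + 1)) (fun v => ind (Dd t v)) v)) w -
          fl u (g t w))) :=
      P.E_mono (fun w hw => P.flag_step (hZ t) (Dd t) (hD t ht) (hD1 t ht) hu hw)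
    rw [E_smul, E_sub, E_ce] at h1
    have h2 : P.E (fun v => fl u (P.ce (Z (t + 1)) (fun v => ind (Dd t v)) v)) ≤
        P.E (fun w => fl u (g (t + 1) w) +
          8 * u * P.ce (Z (t + 1)) (fun v => ind (Dd t v ∧ ¬ Dd (t + 1) v)) w) := by
      refine P.E_mono (fun w hw => ?_)
      have hr : P.ce (Z (t + 1)) (fun v => ind (Dd t v)) w ≤
          g (t + 1) w + P.ce (Z (t + 1)) (fun v => ind (Dd t v ∧ ¬ Dd (t + 1) v)) w := by
        rw [hg]
        simp only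
        rw [← P.ce_add]
        refine P.ce_mono (fun v _ => ?_) w
        by_cases h1 : Dd (t + 1) v
        · rw [ind_of h1]; linarith [ind_le_one (Dd t v), ind_nonneg (Dd t v ∧ ¬ Dd (t + 1) v)]
        · by_cases h0 : Dd t v
          · rw [ind_of h0, ind_not h1, ind_of ⟨h0, h1⟩]; linarith
          · rw [ind_not h0, ind_not h1]; linarith [ind_nonneg (Dd t v ∧ ¬ Dd (t + 1) v)]
      have hgn : 0 ≤ g (t + 1) w := P.ce_nonneg (fun _ _ => ind_nonneg _) w
      have hrn : 0 ≤ P.ce (Z (t + 1)) (fun v => ind (Dd t v ∧ ¬ Dd (t + 1) v)) w :=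
        P.ce_nonneg (fun _ _ => ind_nonneg _) w
      have h3 := fl_mono hu (P.ce_nonneg (X := Z (t + 1)) (f := fun v => ind (Dd t v)) (fun _ _ => ind_nonneg _) w) hr
      have h4 := fl_lip hu hgn (le_add_of_nonneg_right hrn)
      have e : g (t + 1) w + P.ce (Z (t + 1)) (fun v => ind (Dd t v ∧ ¬ Dd (t + 1) v)) w - g (t + 1) w =
        P.ce (Z (t + 1)) (fun v => ind (Dd t v ∧ ¬ Dd (t + 1) v)) w := by ring
      rw [e] at h4
      exact h3.trans h4
    rw [E_add, E_smul, E_ce] at h2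
    unfold Pr
    linarith
  have hsum := Finset.sum_le_sum (fun t ht => hstep t (Finset.mem_range.mp ht))
  have htel : ∑ t ∈ range n, 3 / 2 * (P.E (fun w => fl u (g (t + 1) w)) - P.E (fun w => fl u (g t w)) +
        8 * u * P.Pr (fun w => Dd t w ∧ ¬ Dd (t + 1) w)) =
      3 / 2 * (P.E (fun w => fl u (g n w)) - P.E (fun w => fl u (g 0 w)) +
        8 * u * ∑ t ∈ range n, P.Pr (fun w => Dd t w ∧ ¬ Dd (t + 1) w)) := by
    rw [← Finset.mul_sum, Finset.sum_add_distrib, Finset.sum_range_sub (fun t => P.E (fun w => fl u (g t w))),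
      ← Finset.mul_sum]
  rw [htel] at hsum
  have h0 : 0 ≤ P.E (fun w => fl u (g 0 w)) :=
    P.E_nonneg (fun w _ => fl_nonneg hu (P.ce_nonneg (fun _ _ => ind_nonneg _) w))
  have hn : P.E (fun w => fl u (g n w)) ≤ 8 * u * P.Pr (Dd n) := by
    have : P.E (fun w => fl u (g n w)) ≤ P.E (fun w => 8 * u * g n w) :=
      P.E_mono (fun w _ => fl_le hu (P.ce_nonneg (fun _ _ => ind_nonneg _) w))
    rw [E_smul, hg] at this
    simp only at this
    rw [E_ce] at this
    exact this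
  linarith

/-- monotone flags -/
theorem flag_cov_mono (hZ : Filt Z) {Dd : ℕ → Om → Prop} {D : ℕ → Om → ℝ} (n : ℕ)
    (hDd : ∀ t < n, ∀ w, P.p w ≠ 0 → Dd t w → Dd (t + 1) w) (hD : ∀ t < n, Fac (Z (t + 1)) (D t))
    (hD1 : ∀ t < n, ∀ w, P.p w ≠ 0 → |D t w| ≤ 1) {u : ℝ} (hu : 0 ≤ u) :
    ∑ t ∈ range n, P.E (fun w => ind (P.ce (Z t) (fun v => ind (Dd t v)) w ≤ u) * P.cov (Z t) (Dd t) (D t) w ^ 2) ≤
      12 * u * P.Pr (Dd n) := by
  have h := P.flag_cov hZ Dd n hD hD1 hu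
  have h0 : ∑ t ∈ range n, P.Pr (fun w => Dd t w ∧ ¬ Dd (t + 1) w) = 0 := by
    refine Finset.sum_eq_zero (fun t ht => ?_)
    have : P.Pr (fun w => Dd t w ∧ ¬ Dd (t + 1) w) = P.Pr (fun _ => False) :=
      P.Pr_congr (fun w hw => ⟨fun h => h.2 (hDd t (Finset.mem_range.mp ht) w hw h.1), fun h => h.elim⟩)
    rw [this]
    unfold Pr
    rw [show (fun _ : Om => ind False) = fun _ => (0 : ℝ) from funext (fun _ => ind_not not_false)]
    exact P.E_const 0
  rw [h0, add_zero] at h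
  exact h

/-- the number of deaths, counted at the births of the flag -/
theorem deaths_eq (Dd : ℕ → Om → Prop) (n : ℕ) :
    P.Pr (Dd n) + ∑ t ∈ range n, P.Pr (fun w => Dd t w ∧ ¬ Dd (t + 1) w) =
      P.Pr (Dd 0) + ∑ t ∈ range n, P.Pr (fun w => ¬ Dd t w ∧ Dd (t + 1) w) := by
  induction n with
  | zero => simp
  | succ n ih =>
    rw [Finset.sum_range_succ, Finset.sum_range_succ]
    have h : P.Pr (Dd (n + 1)) + P.Pr (fun w => Dd n w ∧ ¬ Dd (n + 1) w) =
        P.Pr (Dd n) + P.Pr (fun w => ¬ Dd n w ∧ Dd (n + 1) w) := by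
      unfold Pr
      rw [← E_add, ← E_add]
      refine P.E_congr (fun w _ => ?_)
      by_cases h0 : Dd n w <;> by_cases h1 : Dd (n + 1) w <;> simp [ind, h0, h1]
    linarith

theorem flag_cov_deaths (hZ : Filt Z) (Dd : ℕ → Om → Prop) {D : ℕ → Om → ℝ} (n : ℕ)
    (hD : ∀ t < n, Fac (Z (t + 1)) (D t))
    (hD1 : ∀ t < n, ∀ w, P.p w ≠ 0 → |D t w| ≤ 1) {u : ℝ} (hu : 0 ≤ u) :
    ∑ t ∈ range n, P.E (fun w => ind (P.ce (Z t) (fun v => ind (Dd t v)) w ≤ u) * P.cov (Z t) (Dd t) (D t) w ^ 2) ≤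
      12 * u * (P.Pr (Dd 0) + ∑ t ∈ range n, P.Pr (fun w => ¬ Dd t w ∧ Dd (t + 1) w)) := by
  rw [← P.deaths_eq Dd n]
  exact P.flag_cov hZ Dd n hD hD1 hu

/-- two flags: `Dd2 \ Dd1` with `Dd1` monotone (names), `Dd2` with resets (third label) -/
theorem flag_cov_two (hZ : Filt Z) {Dd1 : ℕ → Om → Prop} (Dd2 : ℕ → Om → Prop) {D : ℕ → Om → ℝ} (n : ℕ)
    (h1 : ∀ t < n, ∀ w, P.p w ≠ 0 → Dd1 t w → Dd1 (t + 1) w) (hD : ∀ t < n, Fac (Z (t + 1)) (D t))
    (hD1 : ∀ t < n, ∀ w, P.p w ≠ 0 → |D t w| ≤ 1) {u : ℝ} (hu : 0 ≤ u) :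
    ∑ t ∈ range n, P.E (fun w => ind (P.ce (Z t) (fun v => ind (Dd2 t v ∧ ¬ Dd1 t v)) w ≤ u) *
        P.cov (Z t) (fun v => Dd2 t v ∧ ¬ Dd1 t v) (D t) w ^ 2) ≤
      12 * u * (P.Pr (Dd2 0) + ∑ t ∈ range n, P.Pr (fun w => ¬ Dd2 t w ∧ Dd2 (t + 1) w)) := by
  refine (P.flag_cov_deaths hZ (fun t v => Dd2 t v ∧ ¬ Dd1 t v) n hD hD1 hu).trans ?_
  refine mul_le_mul_of_nonneg_left (add_le_add ?_ (Finset.sum_le_sum (fun t ht => ?_))) (by positivity)
  · exact P.Pr_mono (fun w _ h => h.1)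
  · refine P.Pr_mono (fun w hw h => ⟨fun h2 => h.1 ⟨h2, fun h3 => h.2.2 (h1 t (Finset.mem_range.mp ht) w hw h3)⟩, h.2.1⟩)

/-! ## the alive points -/

theorem alive_ce {ι : Type*} (X : Om → ι) (Dd : Om → Prop) (D : Om → ℝ) (w : Om) :
    P.ce X (fun v => ind (¬ Dd v) * D v) w =
      (1 - P.ce X (fun v => ind (Dd v)) w) * P.ce X D w - P.cov X Dd D w := by
  have e : P.ce X (fun v => ind (¬ Dd v) * D v) w =
      P.ce X D w - P.ce X (fun v => ind (Dd v) * D v) w := by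
    rw [← P.ce_sub]
    exact P.ce_congr (fun v _ => by rw [ind_not_eq]; ring) w
  rw [e]
  unfold cov
  ring

/-- weights of the atom `X` -/
theorem alive_E {ι : Type*} {X : Om → ι} (Dd : Om → Prop) (D : Om → ℝ) {p : Om → ℝ} (hp : Fac X p) :
    P.E (fun w => ind (¬ Dd w) * p w * D w) =
      P.E (fun w => ind (¬ Dd w) * p w * P.ce X D w) - P.E (fun w => p w * P.cov X Dd D w) := by
  have e1 : P.E (fun w => ind (¬ Dd w) * p w * D w) = P.E (fun w => p w * P.ce X (fun v => ind (¬ Dd v) * D v) w) := by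
    rw [P.E_mul_ce hp]
    exact P.E_congr (fun w _ => by ring)
  have e2 : P.E (fun w => ind (¬ Dd w) * p w * P.ce X D w) =
      P.E (fun w => (p w * P.ce X D w) * (1 - P.ce X (fun v => ind (Dd v)) w)) := by
    have h1 : P.E (fun w => (p w * P.ce X D w) * P.ce X (fun v => ind (Dd v)) w) =
        P.E (fun w => (p w * P.ce X D w) * ind (Dd w)) := P.E_mul_ce (hp.mul (P.ce_fac X D)) _
    have h2 : P.E (fun w => (p w * P.ce X D w) * (1 - P.ce X (fun v => ind (Dd v)) w)) =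
        P.E (fun w => p w * P.ce X D w) - P.E (fun w => (p w * P.ce X D w) * P.ce X (fun v => ind (Dd v)) w) := by
      rw [← E_sub]
      exact P.E_congr (fun w _ => by ring)
    rw [h2, h1, ← E_sub]
    exact P.E_congr (fun w _ => by rw [ind_not_eq]; ring)
  rw [e1, e2, ← E_sub]
  refine P.E_congr (fun w _ => ?_)
  rw [P.alive_ce]
  ring

/-- the bias given alive -/
theorem alive_bias {ι : Type*} (X : Om → ι) (Dd : Om → Prop) (D : Om → ℝ) {w : Om}
    (hg : P.ce X (fun v => ind (Dd v)) w ≤ 1 / 2) :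
    |P.ce X (fun v => ind (¬ Dd v) * D v) w / (1 - P.ce X (fun v => ind (Dd v)) w) - P.ce X D w| ≤
      2 * |P.cov X Dd D w| := by
  rw [P.alive_ce]
  set g := P.ce X (fun v => ind (Dd v)) w
  have h1 : (1 / 2 : ℝ) ≤ 1 - g := by linarith
  have e : ((1 - g) * P.ce X D w - P.cov X Dd D w) / (1 - g) - P.ce X D w = - (P.cov X Dd D w / (1 - g)) := by
    field_simp
    ring
  rw [e, abs_neg, abs_div, abs_of_pos (by linarith : 0 < 1 - g), div_le_iff₀ (by linarith)]
  nlinarith [abs_nonneg (P.cov X Dd D w)]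

/-- Markov for the share in the finer atom -/
theorem flag_markov {ι ι' : Type*} {X : Om → ι} {Y : Om → ι'} (hYX : Fac Y X) (Dd : Om → Prop) {p : Om → ℝ}
    (hp : Fac X p) (hp0 : ∀ w, P.p w ≠ 0 → 0 ≤ p w) {u u' : ℝ} (hu' : 0 < u')
    (hgu : ∀ w, P.p w ≠ 0 → p w ≠ 0 → P.ce X (fun v => ind (Dd v)) w ≤ u) :
    P.E (fun w => p w * ind (u' < P.ce Y (fun v => ind (Dd v)) w)) ≤ u / u' * P.E p := by
  have h1 : P.E (fun w => p w * ind (u' < P.ce Y (fun v => ind (Dd v)) w)) ≤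
      P.E (fun w => p w * (P.ce Y (fun v => ind (Dd v)) w / u')) := by
    refine P.E_mono (fun w hw => mul_le_mul_of_nonneg_left ?_ (hp0 w hw))
    have h0 := P.share_nonneg Y Dd w
    by_cases h : u' < P.ce Y (fun v => ind (Dd v)) w
    · rw [ind_of h, le_div_iff₀ hu']; linarith
    · rw [ind_not h]; positivity
  refine h1.trans ?_
  have h2 : P.E (fun w => p w * (P.ce Y (fun v => ind (Dd v)) w / u')) =
      P.E (fun w => (p w / u') * P.ce X (fun v => ind (Dd v)) w) := by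
    have e1 : P.E (fun w => (p w / u') * P.ce Y (fun v => ind (Dd v)) w) =
        P.E (fun w => (p w / u') * ind (Dd w)) := P.E_mul_ce ((hYX.trans hp).comp (fun x => x / u')) _
    have e2 : P.E (fun w => (p w / u') * P.ce X (fun v => ind (Dd v)) w) =
        P.E (fun w => (p w / u') * ind (Dd w)) := P.E_mul_ce (hp.comp (fun x => x / u')) _
    rw [e2, ← e1]
    exact P.E_congr (fun w _ => by ring)
  rw [h2, ← E_smul]
  refine P.E_mono (fun w hw => ?_)
  by_cases h : p w = 0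
  · rw [h]; simp
  · have h3 := hgu w hw h
    have h4 := hp0 w hw
    have e : u / u' * p w = p w / u' * u := by ring
    rw [e]
    exact mul_le_mul_of_nonneg_left h3 (by positivity)

/-- monotone flags: the share is rarely large -/
theorem flag_ever (hZ : Filt Z) {Dd : ℕ → Om → Prop} (hDd : ∀ t, ∀ w, P.p w ≠ 0 → Dd t w → Dd (t + 1) w) (n : ℕ) (c : ℝ) :
    c * P.Pr (fun w => ∃ t ≤ n, c ≤ P.ce (Z t) (fun v => ind (Dd t v)) w) ≤ P.Pr (Dd n) := by
  have h := P.doob_sub hZ (Z := fun t => P.ce (Z t) (fun v => ind (Dd t v))) (fun t => P.ce_fac _ _)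
    (fun t w _ => P.share_nonneg _ _ w) (fun t w _ => ?_) n c
  · rw [E_ce] at h
    exact h
  · rw [← P.ce_tower (hZ t)]
    refine P.ce_mono (fun v _ => P.ce_mono (fun v' hv' => ind_mono (hDd t v' hv')) v) w

end Pool.Agent.M3.FP
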