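import Pool.Agent.GML.FlagCov
import Pool.Agent.M3.FPInfo

/-!
# GML/KeyExp: the experiment with keys (notes 4007, 4013, 4043 (4)), abstract

`J` finite set of keys, `Anc j : Om → α` the anchor data of the key `j` (hidden point, known points, node and top label at
the anchor).  `P.keys Anc` = law on `Om × (J → Om)` : true point `w` with law `P`, keys `v j` conditionally independent given
`w`, the key `j` = copy of `w` given `Anc j`.

* `keys_E_fst`, `keys_E_key` : every marginal is `P`;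
* `keys_resample` : a key may be resampled; `keys_ce_key` : for `f` of the key and `F` of everything else,
  `E F f(v j) = E F (ce (Anc j) f)(w)`;
* `keys_cold` : coldness of a key given everything else;
* `keys_E_seen` : functions which see only the keys of `S`;
* **`keys_swap`** : on functions which see only the keys of `S`, the true point and the key `j0 ∈ S` may be exchanged, if
  `Anc j` is a function of `Anc j0` for every `j ∈ S` (earlier families and the family of `j0`);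
* `keys_ce_swap`, `keys_cov_swap` : conditional expectations and covariances given a symmetric `Z` which sees only the keys
  of `S`; `keys_cov_key` : the covariance terms of the key `j0` have the same mean as those of the true point;
* `ce_at`, `cov_at` : conditional expectations at a point depend only on the atom of the point (recorded epochs);
* **`keys_flag_sum`** : families `e < M` (`fam j` = family of the key `j`), `Z e t` = background of the family `e` at the time
  `t`, `ep t` = epoch of a point: the flag sums of the key `kk e` over all families and all times are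
  `≤ 12 u (P(Dd 0) + ∑ P(¬ Dd t ∧ Dd (t+1)))`, ONE sum for all epochs (4043 (4)).
-/

set_option autoImplicit false
set_option linter.unusedSectionVars false

namespace Pool.Agent.M3.FP

open Finset Pool.Agent.PWZ

variable {Om : Type*} [Fintype Om] (P : FP Om) {J : Type*} [Fintype J] [DecidableEq J] {α : J → Type*}
  (Anc : ∀ j, Om → α j)

/-- law of a copy of `w` given `Anc j` -/
noncomputable def kq (j : J) (w v : Om) : ℝ := P.p v * ind (Anc j v = Anc j w) / P.m (Anc j) w

theorem kq_nonneg (j : J) (w v : Om) : 0 ≤ P.kq Anc j w v :=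
  div_nonneg (mul_nonneg (P.nn v) (ind_nonneg _)) (P.m_nonneg _ _)

theorem kq_sum (j : J) (w : Om) (f : Om → ℝ) : ∑ v, P.kq Anc j w v * f v = P.ce (Anc j) f w := by
  unfold kq ce E
  rw [Finset.sum_div]
  exact Finset.sum_congr rfl (fun v _ => by ring)

theorem kq_one (j : J) {w : Om} (hw : P.p w ≠ 0) : ∑ v, P.kq Anc j w v = 1 := by
  have h := P.kq_sum Anc j w (fun _ => 1)
  simp only [mul_one] at h
  rw [h]
  exact P.ce_const _ 1 hw

theorem prod_kq_sum {w : Om} (hw : P.p w ≠ 0) : ∑ v : J → Om, ∏ j, P.kq Anc j w (v j) = 1 := by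
  classical
  have h2 := Finset.prod_univ_sum (fun _ : J => (univ : Finset Om)) (fun j v => P.kq Anc j w v)
  rw [Fintype.piFinset_univ] at h2
  rw [← h2]
  exact Finset.prod_eq_one fun j _ => P.kq_one Anc j hw

/-- **the experiment with keys** -/
noncomputable def keys : FP (Om × (J → Om)) where
  p z := P.p z.1 * ∏ j, P.kq Anc j z.1 (z.2 j)
  nn z := mul_nonneg (P.nn _) (Finset.prod_nonneg (fun j _ => P.kq_nonneg Anc j _ _))
  tot := by
    classical
    rw [Fintype.sum_prod_type]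
    have h : ∀ w, ∑ v : J → Om, P.p w * ∏ j, P.kq Anc j w (v j) = P.p w := by
      intro w
      rw [← Finset.mul_sum]
      by_cases hw : P.p w = 0
      · rw [hw, zero_mul]
      · rw [P.prod_kq_sum Anc hw, mul_one]
    exact (Finset.sum_congr rfl (fun w _ => h w)).trans P.tot

theorem keys_p (z : Om × (J → Om)) : (P.keys Anc).p z = P.p z.1 * ∏ j, P.kq Anc j z.1 (z.2 j) := rfl

theorem keys_E (f : Om × (J → Om) → ℝ) :
    (P.keys Anc).E f = ∑ w, P.p w * ∑ v : J → Om, (∏ j, P.kq Anc j w (v j)) * f (w, v) := by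
  unfold E
  rw [Fintype.sum_prod_type]
  refine Finset.sum_congr rfl (fun w _ => ?_)
  rw [Finset.mul_sum]
  exact Finset.sum_congr rfl (fun v _ => by rw [keys_p]; ring)

theorem keys_ne {z : Om × (J → Om)} (hz : (P.keys Anc).p z ≠ 0) : P.p z.1 ≠ 0 := by
  intro h
  exact hz (by rw [keys_p, h, zero_mul])

theorem keys_kq_ne {z : Om × (J → Om)} (hz : (P.keys Anc).p z ≠ 0) (j : J) : P.kq Anc j z.1 (z.2 j) ≠ 0 := by
  intro h
  exact hz (by rw [keys_p, Finset.prod_eq_zero (Finset.mem_univ j) h, mul_zero])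

theorem keys_key_ne {z : Om × (J → Om)} (hz : (P.keys Anc).p z ≠ 0) (j : J) : P.p (z.2 j) ≠ 0 := by
  intro h
  refine P.keys_kq_ne Anc hz j ?_
  unfold kq
  rw [h, zero_mul, zero_div]

theorem keys_anc {z : Om × (J → Om)} (hz : (P.keys Anc).p z ≠ 0) (j : J) : Anc j (z.2 j) = Anc j z.1 := by
  by_contra h
  refine P.keys_kq_ne Anc hz j ?_
  unfold kq
  rw [ind_not h, mul_zero, zero_div]

/-- the true point has the law `P` -/
theorem keys_E_fst (f : Om → ℝ) : (P.keys Anc).E (fun z => f z.1) = P.E f := by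
  rw [keys_E]
  unfold E
  refine Finset.sum_congr rfl (fun w _ => ?_)
  by_cases hw : P.p w = 0
  · rw [hw, zero_mul, zero_mul]
  · have e : ∑ v : J → Om, (∏ j, P.kq Anc j w (v j)) * f (w, v).1 = (∑ v : J → Om, ∏ j, P.kq Anc j w (v j)) * f w := by
      rw [Finset.sum_mul]
    rw [e, P.prod_kq_sum Anc hw, one_mul]

/-- split off one key -/
theorem sum_split (j0 : J) (w : Om) (f : (J → Om) → ℝ) :
    ∑ v : J → Om, (∏ j, P.kq Anc j w (v j)) * f v =
      ∑ u : {j // j ≠ j0} → Om, (∏ j : {j // j ≠ j0}, P.kq Anc j.1 w (u j)) *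
        ∑ x, P.kq Anc j0 w x * f ((Equiv.funSplitAt j0 Om).symm (x, u)) := by
  classical
  rw [← (Equiv.funSplitAt j0 Om).symm.sum_comp, Fintype.sum_prod_type, Finset.sum_comm]
  refine Finset.sum_congr rfl (fun u _ => ?_)
  rw [Finset.mul_sum]
  refine Finset.sum_congr rfl (fun x _ => ?_)
  have h : ∏ j, P.kq Anc j w ((Equiv.funSplitAt j0 Om).symm (x, u) j) =
      P.kq Anc j0 w x * ∏ j : {j // j ≠ j0}, P.kq Anc j.1 w (u j) := by
    rw [Fintype.prod_eq_mul_prod_subtype_ne _ j0]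
    congr 1
    · congr 1
      simp [Equiv.funSplitAt, Equiv.piSplitAt]
    · refine Finset.prod_congr rfl (fun j _ => ?_)
      congr 1
      simp [Equiv.funSplitAt, Equiv.piSplitAt, j.2]
  rw [h]
  ring

/-- a key may be resampled -/
theorem keys_resample (j0 : J) (G : Om × (J → Om) → ℝ) :
    (P.keys Anc).E G =
      (P.keys Anc).E (fun z => ∑ x, P.kq Anc j0 z.1 x * G (z.1, Function.update z.2 j0 x)) := by
  rw [keys_E, keys_E]
  refine Finset.sum_congr rfl (fun w _ => ?_)
  by_cases hw : P.p w = 0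
  · rw [hw, zero_mul, zero_mul]
  congr 1
  rw [P.sum_split Anc j0 w (fun v => G (w, v)),
    P.sum_split Anc j0 w (fun v => ∑ x, P.kq Anc j0 w x * G (w, Function.update v j0 x))]
  refine Finset.sum_congr rfl (fun u _ => ?_)
  congr 1
  have h : ∀ x y : Om, Function.update ((Equiv.funSplitAt j0 Om).symm (x, u)) j0 y =
      (Equiv.funSplitAt j0 Om).symm (y, u) := by
    intro x y
    funext j
    by_cases hj : j = j0
    · subst hj
      simp [Equiv.funSplitAt, Equiv.piSplitAt]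
    · simp [Equiv.funSplitAt, Equiv.piSplitAt, hj]
  have h2 : ∑ x, P.kq Anc j0 w x *
      ∑ y, P.kq Anc j0 w y * G (w, Function.update ((Equiv.funSplitAt j0 Om).symm (x, u)) j0 y) =
      (∑ x, P.kq Anc j0 w x) * ∑ y, P.kq Anc j0 w y * G (w, (Equiv.funSplitAt j0 Om).symm (y, u)) := by
    rw [Finset.sum_mul]
    refine Finset.sum_congr rfl (fun x _ => ?_)
    congr 1
    exact Finset.sum_congr rfl (fun y _ => by rw [h])
  rw [h2, P.kq_one Anc j0 hw, one_mul]

/-- `f` of the key `j0`, `F` of everything else -/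
theorem keys_ce_key (j0 : J) {F : Om × (J → Om) → ℝ} (hF : ∀ w v x, F (w, Function.update v j0 x) = F (w, v))
    (f : Om → ℝ) :
    (P.keys Anc).E (fun z => F z * f (z.2 j0)) = (P.keys Anc).E (fun z => F z * P.ce (Anc j0) f z.1) := by
  rw [P.keys_resample Anc j0]
  refine (P.keys Anc).E_congr (fun z _ => ?_)
  rw [← P.kq_sum Anc j0, Finset.mul_sum]
  refine Finset.sum_congr rfl (fun x _ => ?_)
  show P.kq Anc j0 z.1 x * (F (z.1, Function.update z.2 j0 x) * f (Function.update z.2 j0 x j0)) = _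
  rw [hF, Function.update_self]
  ring

/-- every key has the law `P` -/
theorem keys_E_key (j0 : J) (f : Om → ℝ) : (P.keys Anc).E (fun z => f (z.2 j0)) = P.E f := by
  have h := P.keys_ce_key Anc j0 (F := fun _ => 1) (fun _ _ _ => rfl) f
  simp only [one_mul] at h
  rw [h, P.keys_E_fst Anc (P.ce (Anc j0) f), P.E_ce]

/-- **coldness of a key given everything else** -/
theorem keys_cold (j0 : J) {F : Om × (J → Om) → ℝ} (hF : ∀ w v x, F (w, Function.update v j0 x) = F (w, v))
    (hF0 : ∀ z, (P.keys Anc).p z ≠ 0 → 0 ≤ F z) {f : Om → ℝ} {ρ : ℝ}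
    (hρ : ∀ w, P.p w ≠ 0 → P.ce (Anc j0) f w ≤ ρ) :
    (P.keys Anc).E (fun z => F z * f (z.2 j0)) ≤ ρ * (P.keys Anc).E F := by
  rw [P.keys_ce_key Anc j0 hF, ← E_smul]
  refine (P.keys Anc).E_mono (fun z hz => ?_)
  rw [mul_comm ρ]
  exact mul_le_mul_of_nonneg_left (hρ z.1 (P.keys_ne Anc hz)) (hF0 z hz)

/-! ## functions which see only the keys of `S` -/

/-- `G` sees only the keys of `S` -/
def SeesOnly (S : Finset J) (G : Om × (J → Om) → ℝ) : Prop :=
  ∀ w v v', (∀ j ∈ S, v j = v' j) → G (w, v) = G (w, v')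

theorem keys_E_seen [Nonempty Om] (S : Finset J) {G : Om × (J → Om) → ℝ} (hG : SeesOnly S G) (d : Om) :
    (P.keys Anc).E G = ∑ w, P.p w * ∑ u : {j // j ∈ S} → Om, (∏ j : {j // j ∈ S}, P.kq Anc j.1 w (u j)) *
      G (w, fun j => if h : j ∈ S then u ⟨j, h⟩ else d) := by
  classical
  rw [keys_E]
  refine Finset.sum_congr rfl (fun w _ => ?_)
  by_cases hw : P.p w = 0
  · rw [hw, zero_mul, zero_mul]
  congr 1
  rw [← (Equiv.piEquivPiSubtypeProd (fun j => j ∈ S) (fun _ => Om)).symm.sum_comp, Fintype.sum_prod_type]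
  refine Finset.sum_congr rfl (fun u _ => ?_)
  have h1 : ∀ x : {j // j ∉ S} → Om,
      (∏ j, P.kq Anc j w ((Equiv.piEquivPiSubtypeProd (fun j => j ∈ S) (fun _ => Om)).symm (u, x) j)) *
        G (w, (Equiv.piEquivPiSubtypeProd (fun j => j ∈ S) (fun _ => Om)).symm (u, x)) =
      (∏ j : {j // j ∈ S}, P.kq Anc j.1 w (u j)) * G (w, fun j => if h : j ∈ S then u ⟨j, h⟩ else d) *
        ∏ j : {j // j ∉ S}, P.kq Anc j.1 w (x j) := by
    intro x
    rw [hG w ((Equiv.piEquivPiSubtypeProd (fun j => j ∈ S) (fun _ => Om)).symm (u, x))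
      (fun j => if h : j ∈ S then u ⟨j, h⟩ else d) (fun j hj => by simp [Equiv.piEquivPiSubtypeProd, hj])]
    have e0 : ∏ j, P.kq Anc j w ((Equiv.piEquivPiSubtypeProd (fun j => j ∈ S) (fun _ => Om)).symm (u, x) j) =
        (∏ j : {j // j ∈ S}, P.kq Anc j.1 w
          ((Equiv.piEquivPiSubtypeProd (fun j => j ∈ S) (fun _ => Om)).symm (u, x) j.1)) *
        ∏ j : {j // j ∉ S}, P.kq Anc j.1 w
          ((Equiv.piEquivPiSubtypeProd (fun j => j ∈ S) (fun _ => Om)).symm (u, x) j.1) := by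
      convert (Fintype.prod_subtype_mul_prod_subtype (fun j => j ∈ S)
        (fun j => P.kq Anc j w ((Equiv.piEquivPiSubtypeProd (fun j => j ∈ S) (fun _ => Om)).symm (u, x) j))).symm
    rw [e0]
    have e1 : ∏ j : {j // j ∈ S}, P.kq Anc j.1 w
        ((Equiv.piEquivPiSubtypeProd (fun j => j ∈ S) (fun _ => Om)).symm (u, x) j.1) =
        ∏ j : {j // j ∈ S}, P.kq Anc j.1 w (u j) :=
      Finset.prod_congr rfl (fun j _ => by simp [Equiv.piEquivPiSubtypeProd, j.2])
    have e2 : ∏ j : {j // j ∉ S}, P.kq Anc j.1 w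
        ((Equiv.piEquivPiSubtypeProd (fun j => j ∈ S) (fun _ => Om)).symm (u, x) j.1) =
        ∏ j : {j // j ∉ S}, P.kq Anc j.1 w (x j) :=
      Finset.prod_congr rfl (fun j _ => by simp [Equiv.piEquivPiSubtypeProd, j.2])
    rw [e1, e2]
    ring
  rw [Finset.sum_congr rfl (fun x _ => h1 x), ← Finset.mul_sum]
  have h3 : ∑ x : {j // j ∉ S} → Om, ∏ j : {j // j ∉ S}, P.kq Anc j.1 w (x j) = 1 := by
    have h2 := Finset.prod_univ_sum (fun _ : {j // j ∉ S} => (univ : Finset Om)) (fun j v => P.kq Anc j.1 w v)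
    rw [Fintype.piFinset_univ] at h2
    rw [← h2]
    exact Finset.prod_eq_one (fun j _ => P.kq_one Anc j.1 hw)
  rw [h3, mul_one]

/-- exchange of the true point and the key `j0` -/
def exch (j0 : J) (z : Om × (J → Om)) : Om × (J → Om) := (z.2 j0, Function.update z.2 j0 z.1)

theorem exch_exch (j0 : J) (z : Om × (J → Om)) : exch j0 (exch j0 z) = z := by
  unfold exch
  refine Prod.ext ?_ ?_
  · simp
  · simp

/-- **the exchange** -/
theorem keys_swap (S : Finset J) {j0 : J} (hj0 : j0 ∈ S) (hA : ∀ j ∈ S, Fac (Anc j0) (Anc j))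
    {G : Om × (J → Om) → ℝ} (hG : SeesOnly S G) :
    (P.keys Anc).E (fun z => G (exch j0 z)) = (P.keys Anc).E G := by
  classical
  obtain ⟨d, hd⟩ := P.exists_p_ne
  have : Nonempty Om := ⟨d⟩
  have hG' : SeesOnly S (fun z => G (exch j0 z)) := by
    intro w v v' h
    show G (v j0, Function.update v j0 w) = G (v' j0, Function.update v' j0 w)
    rw [h j0 hj0]
    refine hG _ _ _ (fun j hj => ?_)
    by_cases hjj : j = j0
    · subst hjj; simp
    · rw [Function.update_of_ne hjj, Function.update_of_ne hjj]; exact h j hj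
  rw [P.keys_E_seen Anc S hG' d, P.keys_E_seen Anc S hG d]
  -- the map of the restricted points
  let k0 : {j // j ∈ S} := ⟨j0, hj0⟩
  let sw : Om × ({j // j ∈ S} → Om) → Om × ({j // j ∈ S} → Om) := fun q => (q.2 k0, Function.update q.2 k0 q.1)
  have hsw : Function.Involutive sw := by
    intro q
    refine Prod.ext ?_ ?_
    · simp [sw]
    · simp [sw]
  let W : Om × ({j // j ∈ S} → Om) → ℝ := fun q => P.p q.1 * ∏ j : {j // j ∈ S}, P.kq Anc j.1 q.1 (q.2 j)
  let GG : Om × ({j // j ∈ S} → Om) → ℝ := fun q => G (q.1, fun j => if h : j ∈ S then q.2 ⟨j, h⟩ else d)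
  have hW : ∀ q, W (sw q) = W q := by
    rintro ⟨w, u⟩
    show P.p (u k0) * ∏ j : {j // j ∈ S}, P.kq Anc j.1 (u k0) (Function.update u k0 w j) =
      P.p w * ∏ j : {j // j ∈ S}, P.kq Anc j.1 w (u j)
    rw [Fintype.prod_eq_mul_prod_subtype_ne _ k0, Fintype.prod_eq_mul_prod_subtype_ne _ k0, Function.update_self]
    by_cases ha : Anc j0 (u k0) = Anc j0 w
    · have hm : P.m (Anc j0) (u k0) = P.m (Anc j0) w := P.Fac_m (Anc j0) _ _ ha
      have e1 : P.p (u k0) * P.kq Anc k0.1 (u k0) w = P.p w * P.kq Anc k0.1 w (u k0) := by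
        show P.p (u k0) * (P.p w * ind (Anc j0 w = Anc j0 (u k0)) / P.m (Anc j0) (u k0)) =
          P.p w * (P.p (u k0) * ind (Anc j0 (u k0) = Anc j0 w) / P.m (Anc j0) w)
        rw [hm, ind_of ha, ind_of ha.symm]
        ring
      have e2 : ∏ j : {j : {j // j ∈ S} // j ≠ k0}, P.kq Anc j.1.1 (u k0) (Function.update u k0 w j.1) =
          ∏ j : {j : {j // j ∈ S} // j ≠ k0}, P.kq Anc j.1.1 w (u j.1) := by
        refine Finset.prod_congr rfl (fun j _ => ?_)
        rw [Function.update_of_ne j.2]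
        have hj := hA j.1.1 j.1.2 _ _ ha
        unfold kq
        rw [hj, P.Fac_m (Anc j.1.1) _ _ hj]
      rw [e2, ← mul_assoc, e1, mul_assoc]
    · have e1 : P.kq Anc k0.1 (u k0) w = 0 := by
        show P.p w * ind (Anc j0 w = Anc j0 (u k0)) / P.m (Anc j0) (u k0) = 0
        rw [ind_not (fun h => ha h.symm), mul_zero, zero_div]
      have e2 : P.kq Anc k0.1 w (u k0) = 0 := by
        show P.p (u k0) * ind (Anc j0 (u k0) = Anc j0 w) / P.m (Anc j0) w = 0
        rw [ind_not ha, mul_zero, zero_div]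
      rw [e1, e2]
      ring
  have hGG : ∀ w (u : {j // j ∈ S} → Om), G (exch j0 (w, fun j => if h : j ∈ S then u ⟨j, h⟩ else d)) = GG (sw (w, u)) := by
    intro w u
    show G ((if h : j0 ∈ S then u ⟨j0, h⟩ else d), Function.update (fun j => if h : j ∈ S then u ⟨j, h⟩ else d) j0 w) =
      G (u k0, fun j => if h : j ∈ S then Function.update u k0 w ⟨j, h⟩ else d)
    rw [dif_pos hj0]
    refine hG _ _ _ (fun j hj => ?_)
    by_cases hjj : j = j0
    · subst hjj
      rw [Function.update_self, dif_pos hj]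
      exact (Function.update_self (f := u) k0 w).symm
    · rw [Function.update_of_ne hjj, dif_pos hj, dif_pos hj]
      have hne : (⟨j, hj⟩ : {j // j ∈ S}) ≠ k0 := fun h => hjj (congrArg Subtype.val h)
      rw [Function.update_of_ne hne]
  have hL : ∀ g : Om × ({j // j ∈ S} → Om) → ℝ,
      ∑ w, P.p w * ∑ u : {j // j ∈ S} → Om, (∏ j : {j // j ∈ S}, P.kq Anc j.1 w (u j)) * g (w, u) =
        ∑ q, W q * g q := by
    intro g
    rw [Fintype.sum_prod_type]
    refine Finset.sum_congr rfl (fun w _ => ?_)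
    rw [Finset.mul_sum]
    exact Finset.sum_congr rfl (fun u _ => by show _ = P.p w * _ * g (w, u); ring)
  have h1 : ∑ w, P.p w * ∑ u : {j // j ∈ S} → Om, (∏ j : {j // j ∈ S}, P.kq Anc j.1 w (u j)) *
      G (exch j0 (w, fun j => if h : j ∈ S then u ⟨j, h⟩ else d)) = ∑ q, W q * GG (sw q) := by
    rw [← hL (fun q => GG (sw q))]
    refine Finset.sum_congr rfl (fun w _ => ?_)
    congr 1
    exact Finset.sum_congr rfl (fun u _ => by rw [hGG w u])
  have h2 : ∑ w, P.p w * ∑ u : {j // j ∈ S} → Om, (∏ j : {j // j ∈ S}, P.kq Anc j.1 w (u j)) *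
      G (w, fun j => if h : j ∈ S then u ⟨j, h⟩ else d) = ∑ q, W q * GG q := (hL GG)
  have h3 : ∑ q, W (sw q) * GG (sw q) = ∑ q, W q * GG q :=
    Equiv.sum_comp (Function.Involutive.toPerm sw hsw) (fun q => W q * GG q)
  rw [h1, h2, ← h3]
  exact Finset.sum_congr rfl (fun q _ => by rw [hW])

/-! ## conditional expectations -/

theorem ce_at {κ ι : Type*} {X : Om → κ} {Y : Om → ι} {w : Om} (h : ∀ v, P.p v ≠ 0 → (X v = X w ↔ Y v = Y w))
    (f : Om → ℝ) : P.ce X f w = P.ce Y f w := by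
  unfold ce m
  have h1 : ∀ g : Om → ℝ, P.E (fun v => ind (X v = X w) * g v) = P.E (fun v => ind (Y v = Y w) * g v) := by
    intro g
    refine P.E_congr (fun v hv => ?_)
    rw [propext (h v hv)]
  have h2 : P.E (fun v => ind (X v = X w)) = P.E (fun v => ind (Y v = Y w)) :=
    P.E_congr (fun v hv => by rw [propext (h v hv)])
  rw [h1, h2]

theorem cov_at {κ ι : Type*} {X : Om → κ} {Y : Om → ι} {w : Om} (h : ∀ v, P.p v ≠ 0 → (X v = X w ↔ Y v = Y w))
    (Dd : Om → Prop) (D : Om → ℝ) : P.cov X Dd D w = P.cov Y Dd D w := by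
  unfold cov
  rw [P.ce_at h, P.ce_at h, P.ce_at h]

theorem cov_congr {κ : Type*} {X : Om → κ} {Dd Dd' : Om → Prop} {D D' : Om → ℝ}
    (h : ∀ w, P.p w ≠ 0 → (Dd w ↔ Dd' w)) (h' : ∀ w, P.p w ≠ 0 → D w = D' w) (w : Om) :
    P.cov X Dd D w = P.cov X Dd' D' w := by
  unfold cov
  rw [P.ce_congr (f := fun v => ind (Dd v) * D v) (g := fun v => ind (Dd' v) * D' v)
    (fun v hv => by rw [propext (h v hv), h' v hv]) w,
    P.ce_congr (f := fun v => ind (Dd v)) (g := fun v => ind (Dd' v)) (fun v hv => by rw [propext (h v hv)]) w,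
    P.ce_congr h' w]

variable {κ : Type*}

theorem keys_ce_swap (S : Finset J) {j0 : J} (hj0 : j0 ∈ S) (hA : ∀ j ∈ S, Fac (Anc j0) (Anc j))
    {Z : Om × (J → Om) → κ} (hZ : ∀ w v v', (∀ j ∈ S, v j = v' j) → Z (w, v) = Z (w, v'))
    (hsym : ∀ z z', Z (exch j0 z) = Z (exch j0 z') ↔ Z z = Z z') {f : Om × (J → Om) → ℝ} (hf : SeesOnly S f)
    (z : Om × (J → Om)) :
    (P.keys Anc).ce Z f (exch j0 z) = (P.keys Anc).ce Z (fun y => f (exch j0 y)) z := by
  have key : ∀ g : Om × (J → Om) → ℝ, SeesOnly S g →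
      (P.keys Anc).E (fun y => ind (Z y = Z (exch j0 z)) * g y) =
        (P.keys Anc).E (fun y => ind (Z y = Z z) * g (exch j0 y)) := by
    intro g hg
    rw [← P.keys_swap Anc S hj0 hA (G := fun y => ind (Z y = Z (exch j0 z)) * g y)
      (fun w v v' h => by simp only; rw [hZ w v v' h, hg w v v' h])]
    refine (P.keys Anc).E_congr (fun y _ => ?_)
    rw [propext (hsym y z)]
  unfold ce m
  rw [key f hf]
  have h1 := key (fun _ => 1) (fun _ _ _ _ => rfl)
  simp only [mul_one] at h1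
  rw [h1]

theorem keys_cov_swap (S : Finset J) {j0 : J} (hj0 : j0 ∈ S) (hA : ∀ j ∈ S, Fac (Anc j0) (Anc j))
    {Z : Om × (J → Om) → κ} (hZ : ∀ w v v', (∀ j ∈ S, v j = v' j) → Z (w, v) = Z (w, v'))
    (hsym : ∀ z z', Z (exch j0 z) = Z (exch j0 z') ↔ Z z = Z z') {Dd : Om × (J → Om) → Prop}
    (hDd : ∀ w v v', (∀ j ∈ S, v j = v' j) → (Dd (w, v) ↔ Dd (w, v'))) {D : Om × (J → Om) → ℝ} (hD : SeesOnly S D)
    (z : Om × (J → Om)) :
    (P.keys Anc).cov Z Dd D (exch j0 z) =
      (P.keys Anc).cov Z (fun y => Dd (exch j0 y)) (fun y => D (exch j0 y)) z := by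
  have h1 : SeesOnly S (fun y => ind (Dd y)) := fun w v v' h => by simp only; rw [propext (hDd w v v' h)]
  have h2 : SeesOnly S (fun y => ind (Dd y) * D y) := fun w v v' h => by
    simp only; rw [propext (hDd w v v' h), hD w v v' h]
  unfold cov
  rw [P.keys_ce_swap Anc S hj0 hA hZ hsym h2, P.keys_ce_swap Anc S hj0 hA hZ hsym h1,
    P.keys_ce_swap Anc S hj0 hA hZ hsym hD]

/-- **the covariance terms of a key**: `dd` the dead points, `dg` the digit (a function of `Anc j0`), `ep` the epoch and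
`u` the threshold -/
theorem keys_cov_key (S : Finset J) {j0 : J} (hj0 : j0 ∈ S) (hA : ∀ j ∈ S, Fac (Anc j0) (Anc j))
    {Z : Om × (J → Om) → κ} (hZ : ∀ w v v', (∀ j ∈ S, v j = v' j) → Z (w, v) = Z (w, v'))
    (hsym : ∀ z z', Z (exch j0 z) = Z (exch j0 z') ↔ Z z = Z z') (dd : Om → Prop) {dg : Om → ℝ}
    (hdg : Fac (Anc j0) dg) (ep : Om → Prop) (u : ℝ) :
    (P.keys Anc).E (fun z => ind (ep (z.2 j0)) * (ind ((P.keys Anc).ce Z (fun y => ind (dd (y.2 j0))) z ≤ u) *
        (P.keys Anc).cov Z (fun y => dd (y.2 j0)) (fun y => dg y.1) z ^ 2)) =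
      (P.keys Anc).E (fun z => ind (ep z.1) * (ind ((P.keys Anc).ce Z (fun y => ind (dd y.1)) z ≤ u) *
        (P.keys Anc).cov Z (fun y => dd y.1) (fun y => dg y.1) z ^ 2)) := by
  have hce : SeesOnly S (fun z => (P.keys Anc).ce Z (fun y => ind (dd y.1)) z) :=
    fun w v v' h => (P.keys Anc).ce_fac Z _ _ _ (hZ w v v' h)
  have hco : SeesOnly S (fun z => (P.keys Anc).cov Z (fun y => dd y.1) (fun y => dg y.1) z) :=
    fun w v v' h => (P.keys Anc).cov_fac Z _ _ _ _ (hZ w v v' h)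
  rw [← P.keys_swap Anc S hj0 hA (G := fun z => ind (ep z.1) *
    (ind ((P.keys Anc).ce Z (fun y => ind (dd y.1)) z ≤ u) *
      (P.keys Anc).cov Z (fun y => dd y.1) (fun y => dg y.1) z ^ 2))
    (fun w v v' h => by
      have e1 := hce w v v' h
      have e2 := hco w v v' h
      simp only at e1 e2 ⊢
      rw [e1, e2])]
  refine (P.keys Anc).E_congr (fun z _ => ?_)
  have e1 := P.keys_ce_swap Anc S hj0 hA hZ hsym (f := fun y => ind (dd y.1)) (fun _ _ _ _ => rfl) z
  have e2 := P.keys_cov_swap Anc S hj0 hA hZ hsym (Dd := fun y => dd y.1) (fun _ _ _ _ => Iff.rfl)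
    (D := fun y => dg y.1) (fun _ _ _ _ => rfl) z
  have e3 : (P.keys Anc).cov Z (fun y => dd (exch j0 y).1) (fun y => dg (exch j0 y).1) z =
      (P.keys Anc).cov Z (fun y => dd (y.2 j0)) (fun y => dg y.1) z :=
    (P.keys Anc).cov_congr (fun y _ => Iff.rfl) (fun y hy => hdg _ _ (P.keys_anc Anc hy j0)) z
  rw [e1, e2, e3]
  rfl

/-- **the flag sums of a key, all epochs at once** -/
theorem keys_flag_sum (fam : J → ℕ) (hA : ∀ j j', fam j' ≤ fam j → Fac (Anc j) (Anc j')) (M n : ℕ)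
    {Z : ℕ → ℕ → Om × (J → Om) → κ} (ep : ℕ → Om → ℕ)
    (hZ : ∀ e t w v v', (∀ j, fam j ≤ e → v j = v' j) → Z e t (w, v) = Z e t (w, v'))
    (kk : ℕ → J) (hkk : ∀ e < M, fam (kk e) = e)
    (hsym : ∀ e < M, ∀ t z z', Z e t (exch (kk e) z) = Z e t (exch (kk e) z') ↔ Z e t z = Z e t z')
    (hloc : ∀ e < M, ∀ t z z', Z e t z = Z e t z' → (ep t z.1 = e ↔ ep t z'.1 = e))
    (hfilt : Filt (fun t z => (ep t z.1, Z (ep t z.1) t z)))
    (Dd : ℕ → Om → Prop) {dg : ℕ → Om → ℝ} (hdg : ∀ t < n, ∀ e < M, Fac (Anc (kk e)) (dg t))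
    (hD : ∀ t < n, Fac (fun z : Om × (J → Om) => (ep (t + 1) z.1, Z (ep (t + 1) z.1) (t + 1) z)) (fun z => dg t z.1))
    (hD1 : ∀ t < n, ∀ w, P.p w ≠ 0 → |dg t w| ≤ 1) {u : ℝ} (hu : 0 ≤ u) :
    ∑ e ∈ range M, ∑ t ∈ range n, (P.keys Anc).E (fun z => ind (ep t (z.2 (kk e)) = e) *
        (ind ((P.keys Anc).ce (Z e t) (fun y => ind (Dd t (y.2 (kk e)))) z ≤ u) *
          (P.keys Anc).cov (Z e t) (fun y => Dd t (y.2 (kk e))) (fun y => dg t y.1) z ^ 2)) ≤
      12 * u * (P.Pr (Dd 0) + ∑ t ∈ range n, P.Pr (fun w => ¬ Dd t w ∧ Dd (t + 1) w)) := by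
  classical
  set Q := P.keys Anc with hQ
  have hmain := Q.flag_cov_deaths hfilt (fun t z => Dd t z.1) (D := fun t z => dg t z.1) n hD
    (fun t ht z hz => hD1 t ht z.1 (P.keys_ne Anc hz)) hu
  have e0 : Q.Pr (fun z => Dd 0 z.1) = P.Pr (Dd 0) := P.keys_E_fst Anc (fun w => ind (Dd 0 w))
  have e1 : ∀ t, Q.Pr (fun z => ¬ Dd t z.1 ∧ Dd (t + 1) z.1) = P.Pr (fun w => ¬ Dd t w ∧ Dd (t + 1) w) :=
    fun t => P.keys_E_fst Anc (fun w => ind (¬ Dd t w ∧ Dd (t + 1) w))
  rw [e0, Finset.sum_congr rfl (fun t _ => e1 t)] at hmain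
  refine le_trans ?_ hmain
  rw [Finset.sum_comm]
  refine Finset.sum_le_sum (fun t ht => ?_)
  have htn := Finset.mem_range.mp ht
  rw [← E_sum]
  have hterm : ∀ e ∈ range M, Q.E (fun z => ind (ep t (z.2 (kk e)) = e) *
        (ind (Q.ce (Z e t) (fun y => ind (Dd t (y.2 (kk e)))) z ≤ u) *
          Q.cov (Z e t) (fun y => Dd t (y.2 (kk e))) (fun y => dg t y.1) z ^ 2)) =
      Q.E (fun z => ind (ep t z.1 = e) *
        (ind (Q.ce (fun z => (ep t z.1, Z (ep t z.1) t z)) (fun y => ind (Dd t y.1)) z ≤ u) *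
          Q.cov (fun z => (ep t z.1, Z (ep t z.1) t z)) (fun y => Dd t y.1) (fun y => dg t y.1) z ^ 2)) := by
    intro e he
    have heM := Finset.mem_range.mp he
    have h1 := P.keys_cov_key Anc (univ.filter fun j => fam j ≤ e) (j0 := kk e)
      (by simp [hkk e heM])
      (fun j hj => hA _ _ (by rw [hkk e heM]; exact (Finset.mem_filter.mp hj).2))
      (Z := Z e t) (fun w v v' h => hZ e t w v v' (fun j hj => h j (by simp [hj]))) (hsym e heM t) (Dd t)
      (hdg t htn e heM) (fun w => ep t w = e) u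
    rw [← hQ] at h1
    rw [h1]
    refine Q.E_congr (fun z _ => ?_)
    by_cases hz : ep t z.1 = e
    · have hat : ∀ v, Q.p v ≠ 0 → (Z e t v = Z e t z ↔
          (fun z : Om × (J → Om) => (ep t z.1, Z (ep t z.1) t z)) v =
            (fun z : Om × (J → Om) => (ep t z.1, Z (ep t z.1) t z)) z) := by
        intro v _
        simp only [Prod.mk.injEq]
        constructor
        · intro h
          have hv := (hloc e heM t v z h).2 hz
          exact ⟨by rw [hv, hz], by rw [hv, hz]; exact h⟩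
        · rintro ⟨h2, h3⟩
          rw [h2, hz] at h3
          exact h3
      rw [Q.ce_at hat, Q.cov_at hat]
    · rw [ind_not hz, zero_mul, zero_mul]
  rw [E_sum, Finset.sum_congr rfl hterm, ← E_sum]
  refine Q.E_mono (fun z _ => ?_)
  rw [← Finset.sum_mul]
  refine mul_le_of_le_one_left (mul_nonneg (ind_nonneg _) (sq_nonneg _)) ?_
  have h5 : ∀ e ∈ range M, ind (ep t z.1 = e) = if ep t z.1 = e then (1 : ℝ) else 0 := by
    intro e _
    by_cases h : ep t z.1 = e
    · rw [ind_of h, if_pos h]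
    · rw [ind_not h, if_neg h]
  rw [Finset.sum_congr rfl h5, Finset.sum_ite_eq]
  split_ifs <;> norm_num

end Pool.Agent.M3.FP
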